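import Pool.Agent.W_92892c_h53.Ord

/-!
The exact relations force infinitely many zero defects (no zero defect is assumed).
-/

namespace W92892cH53

open Finset Filter Topology Polynomial

/-- Taylor data, normalised at `0`, with the exact relations for cosets with two and four elements. -/
structure Exact {D : Type*} [AddCommGroup D] (R : PowerSeries ℂ) (lam : D → ℝ)
    (f : D → PowerSeries ℂ) (k : D → ℕ) : Prop where
  odd : ∀ d j, Odd j → PowerSeries.coeff j
    (f d * PowerSeries.rescale (lam d : ℂ) (PowerSeries.exp ℂ) * R) = 0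
  zero : ∀ d, PowerSeries.coeff 0 (f d) = 1
  grow : Tendsto lam cofinite atTop
  pair : ∀ a b, a ≠ b → PowerSeries.coeff (k a + k b) (f a * f b) =
    PowerSeries.coeff (k a) (f a) * PowerSeries.coeff (k b) (f b)
  four : ∀ a b c, a ≠ b → a ≠ c → b ≠ c →
    PowerSeries.coeff (k a + k b + k c + k (a + b + c)) (f a * f b * f c * f (a + b + c)) =
      PowerSeries.coeff (k a) (f a) * PowerSeries.coeff (k b) (f b) *
        PowerSeries.coeff (k c) (f c) * PowerSeries.coeff (k (a + b + c)) (f (a + b + c))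

theorem IsType.mul {G G' : PowerSeries ℂ} {x x' : ℂ} {F F' : PowerSeries ℂ}
    (h : W92892c.IsType G x F) (h' : W92892c.IsType G' x' F') :
    W92892c.IsType (G * G') (x + x') (F * F') := by
  obtain ⟨E, hE, hE0, rfl⟩ := h
  obtain ⟨E', hE', hE0', rfl⟩ := h'
  refine ⟨E * E', ?_, ?_, ?_⟩
  · intro j hj
    rw [PowerSeries.coeff_mul]
    refine Finset.sum_eq_zero fun q hq => ?_
    rw [HasAntidiagonal.mem_antidiagonal] at hq
    rcases Nat.even_or_odd q.1 with h1 | h1
    · rcases Nat.even_or_odd q.2 with h2 | h2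
      · exfalso
        have := h1.add h2
        rw [hq] at this
        exact (Nat.not_even_iff_odd.2 hj) this
      · rw [hE' _ h2, mul_zero]
    · rw [hE _ h1, zero_mul]
  · rw [PowerSeries.coeff_zero_eq_constantCoeff_apply] at hE0 hE0' ⊢
    rw [map_mul, hE0, hE0', one_mul]
  · rw [← PowerSeries.exp_mul_exp_eq_exp_add]
    ring

theorem finrank_ge' {n : ℕ} {G : PowerSeries ℂ} (hG : PowerSeries.coeff 0 G = 1)
    (U : Submodule ℂ (Fin (n + 1) → ℂ)) {ι : Type*} {𝓕 : Filter ι} [𝓕.NeBot] (x : ι → ℂ)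
    (hx : Tendsto (fun i => ‖x i‖) 𝓕 atTop) (F : ι → PowerSeries ℂ)
    (hF : ∀ i, W92892c.IsType G (x i) (F i)) (hU : ∀ i, vec n (F i) ∈ U) :
    n + 1 - n / 2 ≤ Module.finrank ℂ U := by
  classical
  have h1 := W92892c.le_finrank_ann U
  have h3 : Module.finrank ℂ (W92892c.ann U) ≤ n / 2 :=
    W92892c.finrank_le_half hG hx hF n (W92892c.ann U) fun φ hφ i => hφ _ (hU i)
  omega

section

variable {D : Type*} [AddCommGroup D] {R : PowerSeries ℂ} {lam : D → ℝ} {f : D → PowerSeries ℂ}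
  {k : D → ℕ}

theorem Exact.isType (H : Exact R lam f k) (hR : PowerSeries.coeff 0 R = 1) (d : D) :
    W92892c.IsType R⁻¹ ((-lam d : ℝ) : ℂ) (f d) := by
  have h1 := W92892c.isType_normal hR (H.odd d) (by rw [H.zero d]; exact one_ne_zero)
  rwa [H.zero d, inv_one, map_one, one_mul] at h1

theorem Exact.norm_tendsto (H : Exact R lam f k) :
    Tendsto (fun d => ‖((-lam d : ℝ) : ℂ)‖) cofinite atTop := by
  have h2 := tendsto_abs_atTop_atTop.comp H.grow
  refine h2.congr fun i => ?_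
  simp only [Function.comp, Complex.norm_real, Real.norm_eq_abs, abs_neg]

theorem add_add_self (hD : ∀ d : D, d + d = 0) (a b : D) : a + b + b = a := by
  rw [add_assoc, hD b, add_zero]

/-- Products of two series whose indices differ by `v` are eventually rational. -/
theorem rational_pair (H : Exact R lam f k) (hR : PowerSeries.coeff 0 R = 1)
    (hD : ∀ d : D, d + d = 0) {v : D} (hv : v ≠ 0) (κ : ℕ) {α : Type*} {𝓕 : Filter α} [𝓕.NeBot]
    (w : α → D) (hw : ∀ d, ∀ᶠ a in 𝓕, w a ≠ d) (hk : ∀ᶠ a in 𝓕, k (w a) = κ ∧ k (w a + v) = κ) :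
    IsRatS 𝓕 (fun a => ((-(lam (w a) + lam (w a + v)) : ℝ) : ℂ)) (4 * κ)
      (fun a => f (w a) * f (w a + v)) := by
  classical
  let Z : Set D := {d | k d = κ ∧ k (d + v) = κ}
  let g : Z → PowerSeries ℂ := fun z => f z * f ((z : D) + v)
  have hg : ∀ z : Z, ∀ᶠ z' in cofinite, PowerSeries.coeff (2 * (2 * κ)) (g z * g z') =
      PowerSeries.coeff (2 * κ) (g z) * PowerSeries.coeff (2 * κ) (g z') := by
    intro z
    have hfin : {z' : Z | (z' : D) = z ∨ (z' : D) = z + v}.Finite := by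
      have h1 : ({(z : D), (z : D) + v} : Set D).Finite := by simp
      refine (h1.preimage (Subtype.val_injective.injOn)).subset ?_
      intro z' hz'
      simpa using hz'
    filter_upwards [hfin.compl_mem_cofinite] with z' hz'
    have hz1 : (z' : D) ≠ z := fun h => hz' (Or.inl h)
    have hz2 : (z' : D) ≠ z + v := fun h => hz' (Or.inr h)
    have e1 : (z : D) + (z + v) + z' = z' + v := by
      rw [show (z : D) + (z + v) + z' = (z + z) + (z' + v) by abel, hD, zero_add]
    have hne : (z : D) ≠ z + v := by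
      intro h
      apply hv
      have := left_eq_add.1 h
      exact this
    have h1 := H.four z (z + v) z' hne hz1.symm hz2.symm
    rw [e1] at h1
    have h2 := H.pair z (z + v) hne
    have hne' : (z' : D) ≠ z' + v := by
      intro h
      apply hv
      exact left_eq_add.1 h
    have h3 := H.pair z' (z' + v) hne'
    obtain ⟨hk1, hk2⟩ := z.2
    obtain ⟨hk3, hk4⟩ := z'.2
    rw [hk1, hk2, hk3, hk4] at h1
    rw [hk1, hk2] at h2
    rw [hk3, hk4] at h3
    have e2 : 2 * (2 * κ) = κ + κ + κ + κ := by ring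
    have e3 : 2 * κ = κ + κ := by ring
    rw [e2, e3]
    show PowerSeries.coeff (κ + κ + κ + κ) (f z * f (z + v) * (f z' * f (z' + v))) =
      PowerSeries.coeff (κ + κ) (f z * f (z + v)) * PowerSeries.coeff (κ + κ) (f z' * f (z' + v))
    rw [h2, h3, ← mul_assoc, h1]
    ring
  obtain ⟨S, hS, hrank⟩ := iso_rank (2 * κ) g hg
  set V := Submodule.span ℂ ((fun i => vec (2 * (2 * κ)) (g i)) '' Sᶜ) with hV
  -- infinitely many indices
  have hSD : ((fun z : Z => (z : D)) '' S).Finite := hS.image _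
  have hev : ∀ᶠ a in 𝓕, ∃ z : Z, z ∉ S ∧ (z : D) = w a := by
    have h1 : ∀ᶠ a in 𝓕, ∀ d ∈ hSD.toFinset, w a ≠ d := by
      rw [Filter.eventually_all_finset]
      exact fun d _ => hw d
    filter_upwards [h1, hk] with a ha1 ha2
    refine ⟨⟨w a, ha2⟩, fun hmem => ?_, rfl⟩
    exact ha1 (w a) (by rw [Set.Finite.mem_toFinset]; exact ⟨⟨w a, ha2⟩, hmem, rfl⟩) rfl
  have hinf : Infinite {z : Z // z ∉ S} := by
    by_contra hcon
    rw [not_infinite_iff_finite] at hcon
    have h1 : (Set.range fun z : {z : Z // z ∉ S} => ((z : Z) : D)).Finite := Set.finite_range _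
    have h2 : ∀ᶠ a in 𝓕, ∀ d ∈ h1.toFinset, w a ≠ d := by
      rw [Filter.eventually_all_finset]
      exact fun d _ => hw d
    obtain ⟨a, ha1, z, hz1, hz2⟩ := (h2.and hev).exists
    exact ha1 (z : D) (by rw [Set.Finite.mem_toFinset]; exact ⟨⟨z, hz1⟩, rfl⟩) hz2.symm
  have hG : PowerSeries.coeff 0 (R⁻¹ * R⁻¹) = 1 := by
    rw [PowerSeries.coeff_zero_eq_constantCoeff_apply, map_mul, PowerSeries.constantCoeff_inv,
      ← PowerSeries.coeff_zero_eq_constantCoeff_apply, hR, inv_one, one_mul]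
  have htype : ∀ d : D, W92892c.IsType (R⁻¹ * R⁻¹) ((-(lam d + lam (d + v)) : ℝ) : ℂ)
      (f d * f (d + v)) := by
    intro d
    have h1 := IsType.mul (H.isType hR d) (H.isType hR (d + v))
    have e1 : ((-(lam d + lam (d + v)) : ℝ) : ℂ) = ((-lam d : ℝ) : ℂ) + ((-lam (d + v) : ℝ) : ℂ) := by
      push_cast; ring
    rw [e1]
    exact h1
  have hinjv : Function.Injective fun d : D => d + v := add_left_injective v
  have hgrow2 : Tendsto (fun d => lam d + lam (d + v)) cofinite atTop :=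
    H.grow.atTop_add_atTop (H.grow.comp hinjv.tendsto_cofinite)
  have hnorm : Tendsto (fun d => ‖((-(lam d + lam (d + v)) : ℝ) : ℂ)‖) cofinite atTop := by
    have h2 := tendsto_abs_atTop_atTop.comp hgrow2
    refine h2.congr fun i => ?_
    simp only [Function.comp, Complex.norm_real, Real.norm_eq_abs, abs_neg]
  have hval : Function.Injective fun z : {z : Z // z ∉ S} => ((z : Z) : D) :=
    Subtype.val_injective.comp Subtype.val_injective
  obtain ⟨P, B, hPB⟩ := W92892c.generic hG (2 * κ) V hrank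
    (ι := {z : Z // z ∉ S}) (f := cofinite)
    (x := fun z => ((-(lam (z : Z) + lam (((z : Z) : D) + v)) : ℝ) : ℂ))
    (hnorm.comp hval.tendsto_cofinite) (F := fun z => f ((z : Z) : D) * f (((z : Z) : D) + v))
    (fun z => htype _) (fun z => Submodule.subset_span ⟨(z : Z), z.2, rfl⟩)
  have hwc : Tendsto w 𝓕 cofinite := by
    rw [Tendsto, Filter.le_cofinite_iff_eventually_ne]
    intro d
    exact hw d
  have hB : ∀ᶠ a in 𝓕, B ≤ ‖((-(lam (w a) + lam (w a + v)) : ℝ) : ℂ)‖ :=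
    (hnorm.comp hwc).eventually_ge_atTop B
  have hall : ∀ᶠ a in 𝓕, (P 0).eval ((-(lam (w a) + lam (w a + v)) : ℝ) : ℂ) ≠ 0 ∧
      ∀ l : Fin (2 * (2 * κ) + 1), (P 0).eval ((-(lam (w a) + lam (w a + v)) : ℝ) : ℂ) *
        PowerSeries.coeff (l : ℕ) (f (w a) * f (w a + v)) =
        (P l).eval ((-(lam (w a) + lam (w a + v)) : ℝ) : ℂ) := by
    filter_upwards [hB, hev] with a ha1 ha2
    obtain ⟨z, hz1, hz2⟩ := ha2
    refine hPB _ _ ha1 (htype _) ?_
    refine Submodule.subset_span ⟨z, hz1, ?_⟩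
    simp only [g, hz2]
    rfl
  intro l hl
  refine ⟨P ⟨l, by omega⟩, P 0, ?_, ?_⟩
  · obtain ⟨a, ha, _⟩ := hall.exists
    intro h0
    apply ha
    rw [h0, eval_zero]
  · filter_upwards [hall] with a ha
    exact ha.2 ⟨l, by omega⟩

theorem rat_affine {α : Type*} {𝓕 : Filter α} {x y : α → ℂ} {N : ℕ} {F : α → PowerSeries ℂ}
    (u v : ℂ) (hu : u ≠ 0) (hy : ∀ᶠ a in 𝓕, y a = u * x a + v) (h : IsRatS 𝓕 y N F) :
    IsRatS 𝓕 x N F := fun l hl => (h l hl).comp_affine u v hu hy

/-- The four terms. -/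
def w4 (p : ℕ → D) (i : ℕ) (a : ℕ × ℕ × ℕ) : D := p i + p a.1 + p a.2.1 + p a.2.2

theorem good_infinite (H : Exact R lam f k) (hR : PowerSeries.coeff 0 R = 1)
    (hD : ∀ d : D, d + d = 0) (p : ℕ → D) (hp : Function.Injective p) (lam0 : ℝ) (t : ℕ → ℝ)
    (ht : Function.Injective t)
    (hlam : ∀ i j l m, i ≠ j → i ≠ l → i ≠ m → j ≠ l → j ≠ m → l ≠ m →
      lam (p i + p j + p l + p m) = lam0 + t i + t j + t l + t m)
    (M : ℕ) (hM : ∀ i j l m, k (p i + p j + p l + p m) ≤ M) : {d | k d = 0}.Infinite := by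
  classical
  -- the ultrafilter
  set 𝓤 : Ultrafilter ℕ := Filter.hyperfilter ℕ with h𝓤
  have hU : ∀ a, ∀ᶠ i in (𝓤 : Filter ℕ), i ≠ a := by
    intro a
    have h1 : {i : ℕ | i ≠ a} ∈ (𝓤 : Filter ℕ) := by
      apply Filter.mem_hyperfilter_of_finite_compl
      have : {i : ℕ | i ≠ a}ᶜ = {a} := by ext i; simp
      rw [this]
      exact Set.finite_singleton a
    exact h1
  have hUp : ∀ d : D, ∀ᶠ i in (𝓤 : Filter ℕ), p i ≠ d := by
    intro d
    by_cases hd : ∃ i, p i = d
    · obtain ⟨i, rfl⟩ := hd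
      filter_upwards [hU i] with j hj h
      exact hj (hp h)
    · exact Eventually.of_forall fun i h => hd ⟨i, h⟩
  obtain ⟨κ, hκ⟩ := exists_const4 (𝓤 := 𝓤) (M := M)
    (fun i j l m => k (p i + p j + p l + p m)) hM
  -- three different first indices
  obtain ⟨a0, ha0⟩ := hκ.exists
  obtain ⟨b0, hb0, hab⟩ := (hκ.and (hU a0)).exists
  obtain ⟨c0, hc0, hac, hbc⟩ := (hκ.and ((hU a0).and (hU b0))).exists
  have hne : ∀ i d, ∀ᶠ a in E3 (𝓤 : Filter ℕ), w4 p i a ≠ d := by
    intro i d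
    rw [eventually_E3]
    refine Eventually.of_forall fun j => Eventually.of_forall fun l => ?_
    filter_upwards [hUp (d - (p i + p j + p l))] with m hm h
    apply hm
    rw [← h]
    simp [w4]
  have hk0 : ∀ i, (∀ᶠ a in E3 (𝓤 : Filter ℕ), k (p i + p a.1 + p a.2.1 + p a.2.2) = κ) →
      ∀ᶠ a in E3 (𝓤 : Filter ℕ), k (w4 p i a) = κ := fun i h => h
  rcases Nat.eq_zero_or_pos κ with hκ0 | hκ1
  · intro hfin
    have h1 : ∀ᶠ a in E3 (𝓤 : Filter ℕ), ∀ d ∈ hfin.toFinset, w4 p a0 a ≠ d := by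
      rw [Filter.eventually_all_finset]
      exact fun d _ => hne a0 d
    obtain ⟨a, h2, h3⟩ := (h1.and (hk0 a0 ha0)).exists
    exact h2 (w4 p a0 a) (by rw [Set.Finite.mem_toFinset]; exact h3.trans hκ0) rfl
  exfalso
  -- distinct indices
  have hdist : ∀ i, ∀ᶠ a in E3 (𝓤 : Filter ℕ), i ≠ a.1 ∧ i ≠ a.2.1 ∧ i ≠ a.2.2 ∧ a.1 ≠ a.2.1 ∧
      a.1 ≠ a.2.2 ∧ a.2.1 ≠ a.2.2 := by
    intro i
    rw [eventually_E3]
    filter_upwards [hU i] with j hj
    filter_upwards [hU i, hU j] with l hl1 hl2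
    filter_upwards [hU i, hU j, hU l] with m hm1 hm2 hm3
    exact ⟨hj.symm, hl1.symm, hm1.symm, hl2.symm, hm2.symm, hm3.symm⟩
  have hl4 : ∀ i, ∀ᶠ a in E3 (𝓤 : Filter ℕ),
      lam (w4 p i a) = lam0 + t i + t a.1 + t a.2.1 + t a.2.2 := by
    intro i
    filter_upwards [hdist i] with a ha
    exact hlam _ _ _ _ ha.1 ha.2.1 ha.2.2.1 ha.2.2.2.1 ha.2.2.2.2.1 ha.2.2.2.2.2
  -- the parameter
  let c : ℂ := -((lam0 + t a0 : ℝ) : ℂ)
  let x : ℕ × ℕ × ℕ → ℂ := fun a => arg3 c (t a.1) (t a.2.1) (t a.2.2)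
  have hshift : ∀ i j a, w4 p i a + (p i + p j) = w4 p j a := by
    intro i j a
    simp only [w4]
    rw [show p i + p a.1 + p a.2.1 + p a.2.2 + (p i + p j) =
      (p i + p i) + (p j + p a.1 + p a.2.1 + p a.2.2) by abel, hD, zero_add]
  have hvne : ∀ i j, i ≠ j → p i + p j ≠ 0 := by
    intro i j hij h
    apply hij
    apply hp
    have h1 := add_add_self hD (p i) (p j)
    rw [h, zero_add] at h1
    exact h1.symm
  have hpair : ∀ i j, i ≠ j → (∀ᶠ a in E3 (𝓤 : Filter ℕ), k (w4 p i a) = κ) →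
      (∀ᶠ a in E3 (𝓤 : Filter ℕ), k (w4 p j a) = κ) →
      IsRatS (E3 (𝓤 : Filter ℕ)) x (4 * κ) (fun a => f (w4 p i a) * f (w4 p j a)) := by
    intro i j hij hi hj
    have h1 := rational_pair H hR hD (hvne i j hij) κ (w4 p i) (hne i)
      (by filter_upwards [hi, hj] with a ha hb
          exact ⟨ha, by rw [hshift]; exact hb⟩)
    simp only [hshift] at h1
    refine rat_affine 2 ((2 * t a0 - t i - t j : ℝ) : ℂ) two_ne_zero ?_ h1
    filter_upwards [hl4 i, hl4 j] with a ha hb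
    rw [ha, hb]
    simp only [x, arg3, c]
    push_cast
    ring
  have r1 := hpair a0 b0 (Ne.symm hab) (hk0 a0 ha0) (hk0 b0 hb0)
  have r2 := hpair a0 c0 (Ne.symm hac) (hk0 a0 ha0) (hk0 c0 hc0)
  have r3 := hpair b0 c0 (Ne.symm hbc) (hk0 b0 hb0) (hk0 c0 hc0)
  have hmul0 : ∀ d d' : D, PowerSeries.coeff 0 (f d * f d') = 1 := by
    intro d d'
    have h1 := H.zero d
    have h2 := H.zero d'
    rw [PowerSeries.coeff_zero_eq_constantCoeff_apply] at h1 h2 ⊢
    rw [map_mul, h1, h2, one_mul]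
  have r : IsRatS (E3 (𝓤 : Filter ℕ)) x (4 * κ) (fun a => f (w4 p a0 a)) := by
    refine IsRatS.sqrt (g := fun a => (f (w4 p a0 a) * f (w4 p b0 a)) *
      (f (w4 p a0 a) * f (w4 p c0 a))) (h := fun a => f (w4 p b0 a) * f (w4 p c0 a))
      (fun a => H.zero _) (fun a => hmul0 _ _) (r1.mul r2) r3 (Eventually.of_forall fun a => ?_)
    ring
  obtain ⟨q, P, hq, hqP⟩ := r.common
  have hinj : Function.Injective fun i : ℕ => (t i : ℂ) := fun i j h =>
    ht (Complex.ofReal_injective h)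
  -- the four-term identity
  have hquad : ∀ x₁ x₂ x₃ x₄ : ℂ, quad (4 * κ) κ P x₁ x₂ x₃ x₄ = 0 := by
    refine quad_all (𝓤 := (𝓤 : Filter ℕ)) hU hinj (4 * κ) κ P c ?_
    have h6 := six_of_E3 (hqP.and (hk0 a0 ha0))
    filter_upwards [h6] with a ha
    filter_upwards [ha] with b hb
    filter_upwards [hb] with c' hc'
    filter_upwards [hc'] with d hd
    filter_upwards [hd, hUp (p b + p c' + p d)] with e he he1
    filter_upwards [he, hUp (p a + p c' + p d), hUp (p a + p e + p b)] with g hg hg1 hg2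
    obtain ⟨h1, h2, h3, h4⟩ := hg
    simp only [x] at h1 h2 h3 h4
    -- four different elements
    have n12 : w4 p a0 (a, b, c') ≠ w4 p a0 (a, d, e) := by
      intro h
      apply he1
      simp only [w4] at h
      have h5 : p b + p c' = p d + p e := by
        have := h
        rw [add_assoc (p a0 + p a), add_assoc (p a0 + p a)] at this
        exact add_left_cancel this
      rw [h5, show p d + p e + p d = (p d + p d) + p e by abel, hD, zero_add]
    have n13 : w4 p a0 (a, b, c') ≠ w4 p a0 (b, d, g) := by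
      intro h
      apply hg1
      simp only [w4] at h
      have h5 : p a + p c' = p d + p g := by
        have h6 : (p a0 + p b) + (p a + p c') = (p a0 + p b) + (p d + p g) := by
          rw [show (p a0 + p b) + (p a + p c') = p a0 + p a + p b + p c' by abel, h]
          abel
        exact add_left_cancel h6
      rw [h5, show p d + p g + p d = (p d + p d) + p g by abel, hD, zero_add]
    have n23 : w4 p a0 (a, d, e) ≠ w4 p a0 (b, d, g) := by
      intro h
      apply hg2
      simp only [w4] at h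
      have h5 : p a + p e = p b + p g := by
        have h6 : (p a0 + p d) + (p a + p e) = (p a0 + p d) + (p b + p g) := by
          rw [show (p a0 + p d) + (p a + p e) = p a0 + p a + p d + p e by abel, h]
          abel
        exact add_left_cancel h6
      rw [h5, show p b + p g + p b = (p b + p b) + p g by abel, hD, zero_add]
    have e4 : w4 p a0 (a, b, c') + w4 p a0 (a, d, e) + w4 p a0 (b, d, g) = w4 p a0 (c', e, g) := by
      simp only [w4]
      rw [show p a0 + p a + p b + p c' + (p a0 + p a + p d + p e) + (p a0 + p b + p d + p g) =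
        (p a0 + p a0) + (p a + p a) + (p b + p b) + (p d + p d) + (p a0 + p c' + p e + p g) by
          abel, hD (p a0), hD (p a), hD (p b), hD (p d)]
      simp
    have h5 := H.four _ _ _ n12 n13 n23
    rw [e4, h1.2, h2.2, h3.2, h4.2] at h5
    rw [show κ + κ + κ + κ = 4 * κ by ring] at h5
    set x₁ := arg3 c (t a) (t b) (t c')
    set x₂ := arg3 c (t a) (t d) (t e)
    set x₃ := arg3 c (t b) (t d) (t g)
    set x₄ := arg3 c (t c') (t e) (t g)
    have hps : ∀ (y : ℂ) (F : PowerSeries ℂ), (∀ l ≤ 4 * κ, q.eval y * PowerSeries.coeff l F =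
        (P l).eval y) → ∀ l ≤ 4 * κ, PowerSeries.coeff l (psx (4 * κ) P y) =
        PowerSeries.coeff l (PowerSeries.C (q.eval y) * F) := by
      intro y F hF l hl
      rw [coeff_psx, if_pos (by omega), PowerSeries.coeff_C_mul, hF l hl]
    have h6 := coeff_mul_congr (coeff_mul_congr (coeff_mul_congr (hps _ _ h1.1) (hps _ _ h2.1))
      (hps _ _ h3.1)) (hps _ _ h4.1) (4 * κ) le_rfl
    unfold quad
    rw [h6, ← h1.1 κ (by omega), ← h2.1 κ (by omega), ← h3.1 κ (by omega), ← h4.1 κ (by omega)]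
    rw [show PowerSeries.C (q.eval x₁) * f (w4 p a0 (a, b, c')) *
        (PowerSeries.C (q.eval x₂) * f (w4 p a0 (a, d, e))) *
        (PowerSeries.C (q.eval x₃) * f (w4 p a0 (b, d, g))) *
        (PowerSeries.C (q.eval x₄) * f (w4 p a0 (c', e, g))) =
        (PowerSeries.C (q.eval x₁) * PowerSeries.C (q.eval x₂) * PowerSeries.C (q.eval x₃) *
          PowerSeries.C (q.eval x₄)) * (f (w4 p a0 (a, b, c')) * f (w4 p a0 (a, d, e)) *
          f (w4 p a0 (b, d, g)) * f (w4 p a0 (c', e, g))) by ring]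
    rw [← map_mul, ← map_mul, ← map_mul, PowerSeries.coeff_C_mul, h5]
    ring
  have hspan := quad_span (4 * κ) ⟨κ, by omega⟩ P hquad
  -- the span contains infinitely many types
  set U := US (4 * κ) P with hUS
  have hxlam : ∀ᶠ a in E3 (𝓤 : Filter ℕ), x a = ((-lam (w4 p a0 a) : ℝ) : ℂ) := by
    filter_upwards [hl4 a0] with a ha
    rw [ha]
    simp only [x, arg3, c]
    push_cast
    ring
  have hw : Tendsto (w4 p a0) (E3 (𝓤 : Filter ℕ)) cofinite := by
    rw [Tendsto, Filter.le_cofinite_iff_eventually_ne]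
    intro d
    exact hne a0 d
  have hqne : ∀ᶠ a in E3 (𝓤 : Filter ℕ), q.eval (x a) ≠ 0 := by
    have h1 : Tendsto (fun a => ‖x a‖) (E3 (𝓤 : Filter ℕ)) atTop := by
      refine (H.norm_tendsto.comp hw).congr' ?_
      filter_upwards [hxlam] with a ha
      rw [ha]
      rfl
    obtain ⟨B, hB⟩ : ∃ B : ℝ, ∀ y ∈ q.roots.toFinset, ‖y‖ ≤ B := by
      obtain ⟨B, hB⟩ := (q.roots.toFinset.image fun y => ‖y‖).bddAbove
      exact ⟨B, fun y hy => hB (Finset.mem_coe.2 (Finset.mem_image_of_mem _ hy))⟩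
    filter_upwards [h1.eventually_gt_atTop B] with a ha h0
    have h2 := hB (x a) (by rw [Multiset.mem_toFinset, mem_roots hq]; exact h0)
    exact absurd ha (not_lt.2 h2)
  have hmem : ∀ᶠ a in E3 (𝓤 : Filter ℕ), vec (4 * κ) (f (w4 p a0 a)) ∈ U := by
    filter_upwards [hqne, hqP] with a ha1 ha2
    have h1 : (fun l : Fin (4 * κ + 1) => (P l).eval (x a)) ∈ U :=
      Submodule.subset_span ⟨x a, rfl⟩
    have h2 : vec (4 * κ) (f (w4 p a0 a)) = (q.eval (x a))⁻¹ •
        (fun l : Fin (4 * κ + 1) => (P l).eval (x a)) := by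
      funext l
      simp only [vec, Pi.smul_apply, smul_eq_mul]
      rw [← ha2 l (by have := l.2; omega), ← mul_assoc, inv_mul_cancel₀ ha1, one_mul]
    rw [h2]
    exact U.smul_mem _ h1
  have hinf : {d : D | vec (4 * κ) (f d) ∈ U}.Infinite := by
    intro hfin
    have h1 : ∀ᶠ a in E3 (𝓤 : Filter ℕ), ∀ d ∈ hfin.toFinset, w4 p a0 a ≠ d := by
      rw [Filter.eventually_all_finset]
      exact fun d _ => hne a0 d
    obtain ⟨a, h2, h3⟩ := (h1.and hmem).exists
    exact h2 (w4 p a0 a) (by rw [Set.Finite.mem_toFinset]; exact h3) rfl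
  have hinf' : Infinite {d : D | vec (4 * κ) (f d) ∈ U} := hinf.to_subtype
  have hRinv : PowerSeries.coeff 0 R⁻¹ = 1 := by
    rw [PowerSeries.coeff_zero_eq_constantCoeff_apply, PowerSeries.constantCoeff_inv,
      ← PowerSeries.coeff_zero_eq_constantCoeff_apply, hR, inv_one]
  have hrank := finrank_ge' (n := 4 * κ) hRinv U (ι := {d : D | vec (4 * κ) (f d) ∈ U})
    (𝓕 := cofinite) (fun d => ((-lam d : ℝ) : ℂ))
    (H.norm_tendsto.comp Subtype.val_injective.tendsto_cofinite) (fun d => f d)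
    (fun d => H.isType hR d) (fun d => d.2)
  obtain ⟨d, hd⟩ := hinf.nonempty
  refine orders_contra (κ := κ) hκ1 U (by omega) ⟨vec (4 * κ) (f d), hd, ?_⟩ ?_
  · show PowerSeries.coeff 0 (f d) ≠ 0
    rw [H.zero]
    exact one_ne_zero
  · exact hspan

end

end W92892cH53
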