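import Pool.Agent.W_92892c_v15.Final
import Pool.Agent.W_92892c_h53.Exact

/-!
The equivalence over multiquadratic fields without the hypothesis that infinitely many twists have
rank `0` (MP_92892c_nt, team V15).
-/

open Filter Topology

namespace MQV

open PowerSeries

variable {real : Bool} {L : ℤ → ℂ → ℂ} {r : ℤ → ℕ} {c : ℤ → ℂ} {lam : ℤ → ℝ}
  {R : PowerSeries ℂ} {k : ℤ → ℕ} {F : ℤ → PowerSeries ℂ}

/-- The group with four elements. -/
noncomputable def V4 (a b d : Cls real) : Finset (Cls real) := by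
  classical
  exact {0, a + b, a + d, b + d}

theorem mem_V4 {a b d v : Cls real} : v ∈ V4 a b d ↔ v = 0 ∨ v = a + b ∨ v = a + d ∨ v = b + d := by
  classical
  simp [V4]

theorem cls1 (x y z : Cls real) : x + y + (x + z) = y + z := by
  rw [show x + y + (x + z) = (x + x) + (y + z) by abel, cls_add_self, zero_add]

theorem card_V4 (a b d : Cls real) : (V4 a b d).card ≤ 4 := by
  classical
  have e : V4 a b d = {0, a + b, a + d, b + d} := by
    unfold V4
    congr
  rw [e]
  exact Finset.card_le_four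

theorem V4_add (a b d : Cls real) : ∀ u ∈ V4 a b d, ∀ v ∈ V4 a b d, u + v ∈ V4 a b d := by
  intro u hu v hv
  rw [mem_V4] at hu hv ⊢
  have e1 : a + b + (a + d) = b + d := cls1 a b d
  have e2 : a + b + (b + d) = a + d := by rw [add_comm a b]; exact cls1 b a d
  have e3 : a + d + (b + d) = a + b := by
    rw [add_comm a d, add_comm b d]
    exact cls1 d a b
  rcases hu with rfl | rfl | rfl | rfl <;> rcases hv with rfl | rfl | rfl | rfl
  all_goals first
    | (left; first | exact add_zero _ | exact cls_add_self _)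
    | (right; left; first | exact zero_add _ | exact add_zero _ | exact e3 | (rw [add_comm]; exact e3))
    | (right; right; left; first | exact zero_add _ | exact add_zero _ | exact e2 |
        (rw [add_comm]; exact e2))
    | (right; right; right; first | exact zero_add _ | exact add_zero _ | exact e1 |
        (rw [add_comm]; exact e1))

theorem prod_V4 {M : Type*} [CommMonoid M] (g : Cls real → M) {a b d : Cls real} (hab : a ≠ b)
    (had : a ≠ d) (hbd : b ≠ d) :
    ∏ v ∈ V4 a b d, g (a + v) = g a * g b * g d * g (a + b + d) := by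
  classical
  have h0 : ∀ x y : Cls real, x ≠ y → x + y ≠ 0 := by
    intro x y hxy h
    apply hxy
    have h1 := cls_add_self y
    rw [← h] at h1
    exact (add_right_cancel h1).symm
  have n1 : (0 : Cls real) ∉ ({a + b, a + d, b + d} : Finset (Cls real)) := by
    simp only [Finset.mem_insert, Finset.mem_singleton, not_or]
    exact ⟨(h0 _ _ hab).symm, (h0 _ _ had).symm, (h0 _ _ hbd).symm⟩
  have n2 : a + b ∉ ({a + d, b + d} : Finset (Cls real)) := by
    simp only [Finset.mem_insert, Finset.mem_singleton, not_or]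
    exact ⟨fun h => hbd (add_left_cancel h), fun h => had (by
      rw [add_comm b d] at h
      exact add_right_cancel h)⟩
  have n3 : a + d ∉ ({b + d} : Finset (Cls real)) := by
    rw [Finset.mem_singleton]
    exact fun h => hab (add_right_cancel h)
  have e : V4 a b d = {0, a + b, a + d, b + d} := by
    unfold V4
    congr
  rw [e, Finset.prod_insert n1, Finset.prod_insert n2, Finset.prod_insert n3,
    Finset.prod_singleton, add_zero, show a + (a + b) = (a + a) + b by abel,
    show a + (a + d) = (a + a) + d by abel, cls_add_self, zero_add, zero_add,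
    show a + (b + d) = a + b + d by abel]
  simp only [mul_assoc]

theorem sum_V4 {M : Type*} [AddCommMonoid M] (g : Cls real → M) {a b d : Cls real} (hab : a ≠ b)
    (had : a ≠ d) (hbd : b ≠ d) :
    ∑ v ∈ V4 a b d, g (a + v) = g a + g b + g d + g (a + b + d) :=
  prod_V4 (M := Multiplicative M) g hab had hbd

theorem Nrm.exact (h : Nrm real L r c lam R k F)
    (hlam : ∀ B : ℝ, {d ∈ Twists real | lam d ≤ B}.Finite)
    (hex : ∀ C : Finset ℤ, ↑C ⊆ Twists real → IsCoset C → C.card ≤ 4 → bsdQuot L r c C = 1) :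
    W92892cH53.Exact R (fun a : Cls real => lam (sqf a))
      (fun a => PowerSeries.C (coeff 0 (F (sqf a)))⁻¹ * F (sqf a)) (fun a => k (sqf a)) := by
  have hne : ∀ a : Cls real, coeff 0 (F (sqf a)) ≠ 0 := fun a => h.zero _ (sqf_mem a)
  refine ⟨?_, ?_, ?_, ?_, ?_⟩
  · intro a j hj
    rw [mul_assoc, mul_assoc, coeff_C_mul, ← mul_assoc (F (sqf a)), h.odd _ (sqf_mem a) j hj,
      mul_zero]
  · intro a
    rw [coeff_C_mul, inv_mul_cancel₀ (hne a)]
  · rw [tendsto_atTop]
    intro b
    rw [eventually_cofinite]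
    have h1 := (finite_iff (real := real) (fun d => lam d ≤ b)).1 (hlam b)
    refine h1.subset ?_
    intro a ha
    exact (not_le.1 ha).le
  · intro a b hab
    have h1 : sqf a ≠ sqf b := fun h2 => hab (sqf_injective h2)
    have h2 := hex {sqf a, sqf b} (pair_subset (sqf_mem a) (sqf_mem b)) (isCoset_pair _ _)
      (Finset.card_le_two.trans (by norm_num))
    rw [h.quot _ (pair_subset (sqf_mem a) (sqf_mem b)), Finset.sum_pair h1, Finset.prod_pair h1]
      at h2
    rw [show PowerSeries.C (coeff 0 (F (sqf a)))⁻¹ * F (sqf a) *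
      (PowerSeries.C (coeff 0 (F (sqf b)))⁻¹ * F (sqf b)) =
      (PowerSeries.C (coeff 0 (F (sqf a)))⁻¹ * PowerSeries.C (coeff 0 (F (sqf b)))⁻¹) *
        (F (sqf a) * F (sqf b)) by ring, ← map_mul, coeff_C_mul, h2, coeff_C_mul, coeff_C_mul,
      h.top _ (sqf_mem a), h.top _ (sqf_mem b)]
    ring
  · intro a b d hab had hbd
    have h0 : (0 : Cls real) ∈ V4 a b d := mem_V4.2 (Or.inl rfl)
    have h2 := hex (cst a (V4 a b d)) (cst_subset _ _) (isCoset_cst h0 (V4_add a b d))
      (by rw [card_cst]; exact card_V4 a b d)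
    rw [h.quot _ (cst_subset _ _), sum_cst, prod_cst,
      sum_V4 (fun v => k (sqf v)) hab had hbd, prod_V4 (fun v => F (sqf v)) hab had hbd] at h2
    rw [show PowerSeries.C (coeff 0 (F (sqf a)))⁻¹ * F (sqf a) *
      (PowerSeries.C (coeff 0 (F (sqf b)))⁻¹ * F (sqf b)) *
      (PowerSeries.C (coeff 0 (F (sqf d)))⁻¹ * F (sqf d)) *
      (PowerSeries.C (coeff 0 (F (sqf (a + b + d))))⁻¹ * F (sqf (a + b + d))) =
      (PowerSeries.C (coeff 0 (F (sqf a)))⁻¹ * PowerSeries.C (coeff 0 (F (sqf b)))⁻¹ *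
        PowerSeries.C (coeff 0 (F (sqf d)))⁻¹ * PowerSeries.C (coeff 0 (F (sqf (a + b + d))))⁻¹) *
        (F (sqf a) * F (sqf b) * F (sqf d) * F (sqf (a + b + d))) by ring, ← map_mul, ← map_mul,
      ← map_mul, coeff_C_mul, h2, coeff_C_mul, coeff_C_mul, coeff_C_mul, coeff_C_mul,
      h.top _ (sqf_mem a), h.top _ (sqf_mem b), h.top _ (sqf_mem d), h.top _ (sqf_mem (a + b + d))]
    ring

/-- The class of a prime. -/
noncomputable def pcl (p : ℕ) (hp : p.Prime) : Cls real :=
  Finsupp.single ⟨p, Or.inl hp⟩ 1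

theorem om_pcl (p : ℕ) (hp : p.Prime) : om (pcl (real := real) p hp) ≤ 1 := by
  unfold om pcl
  rw [Finsupp.support_single _ (one_ne_zero : (1 : ZMod 2) ≠ 0)]
  simp

theorem sqf_add {a b : Cls real} (h : Disjoint a.support b.support) :
    sqf (a + b) = sqf a * sqf b := by
  classical
  unfold sqf
  rw [Finsupp.support_add_eq h, Finset.prod_union h]

theorem sqf_pcl (p : ℕ) (hp : p.Prime) : sqf (pcl (real := real) p hp) = p := by
  unfold sqf pcl
  rw [Finsupp.support_single _ (one_ne_zero : (1 : ZMod 2) ≠ 0), Finset.prod_singleton]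
  unfold gen
  rw [if_neg hp.ne_zero]

theorem sqf_four {p q l m : ℕ} (hp : p.Prime) (hq : q.Prime) (hl : l.Prime) (hm : m.Prime)
    (h1 : p ≠ q) (h2 : p ≠ l) (h3 : p ≠ m) (h4 : q ≠ l) (h5 : q ≠ m) (h6 : l ≠ m) :
    sqf (pcl (real := real) p hp + pcl q hq + pcl l hl + pcl m hm) = (p * q * l * m : ℤ) := by
  classical
  have hs : ∀ (p : ℕ) (hp : p.Prime), (pcl (real := real) p hp).support = {⟨p, Or.inl hp⟩} := by
    intro p hp
    unfold pcl
    exact Finsupp.support_single _ (one_ne_zero : (1 : ZMod 2) ≠ 0)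
  have d1 : Disjoint (pcl (real := real) p hp).support (pcl (real := real) q hq).support := by
    rw [hs, hs, Finset.disjoint_singleton]
    intro h
    exact h1 (congrArg Subtype.val h)
  have s1 : (pcl (real := real) p hp + pcl q hq).support = {⟨p, Or.inl hp⟩, ⟨q, Or.inl hq⟩} := by
    rw [Finsupp.support_add_eq d1, hs, hs]
    rfl
  have d2 : Disjoint (pcl (real := real) p hp + pcl q hq).support
      (pcl (real := real) l hl).support := by
    rw [s1, hs, Finset.disjoint_singleton_right]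
    simp only [Finset.mem_insert, Finset.mem_singleton, Subtype.mk.injEq, not_or]
    exact ⟨h2.symm, h4.symm⟩
  have s2 : (pcl (real := real) p hp + pcl q hq + pcl l hl).support =
      {⟨p, Or.inl hp⟩, ⟨q, Or.inl hq⟩} ∪ {⟨l, Or.inl hl⟩} := by
    rw [Finsupp.support_add_eq d2, s1, hs]
  have d3 : Disjoint (pcl (real := real) p hp + pcl q hq + pcl l hl).support
      (pcl (real := real) m hm).support := by
    rw [s2, hs, Finset.disjoint_singleton_right]
    simp only [Finset.mem_union, Finset.mem_insert, Finset.mem_singleton, Subtype.mk.injEq, not_or]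
    exact ⟨⟨h3.symm, h5.symm⟩, h6.symm⟩
  rw [sqf_add d3, sqf_add d2, sqf_add d1, sqf_pcl, sqf_pcl, sqf_pcl, sqf_pcl]

theorem Nrm.good_of_exact (h : Nrm real L r c lam R k F)
    (hlam : ∀ B : ℝ, {d ∈ Twists real | lam d ≤ B}.Finite)
    (hex : ∀ C : Finset ℤ, ↑C ⊆ Twists real → IsCoset C → C.card ≤ 4 → bsdQuot L r c C = 1)
    (hb : ∀ n : ℕ, ∃ M : ℕ, ∀ d ∈ Twists real, d.natAbs.primeFactors.card ≤ n → r d ≤ M)
    (S : Set ℕ) (hS : S.Infinite) (hSp : ∀ p ∈ S, p.Prime) (l0 : ℝ)
    (hA : ∀ p ∈ S, ∀ q ∈ S, ∀ l ∈ S, ∀ m ∈ S, p ≠ q → p ≠ l → p ≠ m → q ≠ l → q ≠ m → l ≠ m →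
      lam (p * q * l * m) = l0 + Real.log p + Real.log q + Real.log l + Real.log m) :
    W92892c.DataB {a : Cls real | k (sqf a) = 0} R (fun a => lam (sqf a))
      (fun a => F (sqf a)) (fun a => k (sqf a)) := by
  have hE := h.exact hlam hex
  let e := hS.natEmbedding S
  have hep : ∀ i, (e i : ℕ).Prime := fun i => hSp _ (e i).2
  have hne : ∀ i j, i ≠ j → (e i : ℕ) ≠ (e j : ℕ) := fun i j hij h1 =>
    hij (e.injective (Subtype.ext h1))
  let p : ℕ → Cls real := fun i => pcl (e i) (hep i)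
  have hp : Function.Injective p := by
    intro i j hij
    by_contra hne'
    apply hne i j hne'
    have h1 := congrArg (sqf (real := real)) hij
    simp only [p] at h1
    rw [sqf_pcl, sqf_pcl] at h1
    exact_mod_cast h1
  obtain ⟨M, hM⟩ := bdd_cls hb 4
  have hom : ∀ i j l m, om (p i + p j + p l + p m) ≤ 4 := by
    intro i j l m
    have h1 := om_add (p i + p j + p l) (p m)
    have h2 := om_add (p i + p j) (p l)
    have h3 := om_add (p i) (p j)
    have h4 := om_pcl (real := real) (e i) (hep i)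
    have h5 := om_pcl (real := real) (e j) (hep j)
    have h6 := om_pcl (real := real) (e l) (hep l)
    have h7 := om_pcl (real := real) (e m) (hep m)
    simp only [p] at h1 h2 h3 ⊢
    omega
  have hinf : {a : Cls real | k (sqf a) = 0}.Infinite := by
    refine W92892cH53.good_infinite hE h.R0 cls_add_self p hp l0
      (fun i => Real.log ((e i : ℕ) : ℝ)) ?_ ?_ M ?_
    · intro i j hij
      by_contra hne'
      apply hne i j hne'
      have h1 : (0 : ℝ) < ((e i : ℕ) : ℝ) := by exact_mod_cast (hep i).pos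
      have h2 : (0 : ℝ) < ((e j : ℕ) : ℝ) := by exact_mod_cast (hep j).pos
      have h3 := Real.log_injOn_pos (Set.mem_Ioi.2 h1) (Set.mem_Ioi.2 h2) hij
      exact_mod_cast h3
    · intro i j l m h1 h2 h3 h4 h5 h6
      simp only [p]
      rw [sqf_four (hep i) (hep j) (hep l) (hep m) (hne _ _ h1) (hne _ _ h2) (hne _ _ h3)
        (hne _ _ h4) (hne _ _ h5) (hne _ _ h6)]
      exact hA _ (e i).2 _ (e j).2 _ (e l).2 _ (e m).2 (hne _ _ h1) (hne _ _ h2) (hne _ _ h3)
        (hne _ _ h4) (hne _ _ h5) (hne _ _ h6)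
    · intro i j l m
      exact (h.rk _ (sqf_mem _)).trans (hM _ (hom i j l m))
  refine ⟨fun a j hj => h.odd _ (sqf_mem a) j hj, fun a => h.zero _ (sqf_mem a),
    fun a => h.top _ (sqf_mem a), hE.grow, hinf, fun b hb => hb, ?_⟩
  intro a
  refine ⟨1, fun b _ hab => ?_⟩
  have h1 : sqf b ≠ sqf a := fun h2 => hab (sqf_injective h2)
  have h2 := hex {sqf a, sqf b} (pair_subset (sqf_mem a) (sqf_mem b)) (isCoset_pair _ _)
    (Finset.card_le_two.trans (by norm_num))
  rw [h.quot _ (pair_subset (sqf_mem a) (sqf_mem b)), Finset.sum_pair h1.symm,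
    Finset.prod_pair h1.symm] at h2
  rw [h2, norm_one]

/-- The exceptions, from the abstract data. -/
theorem few_of_data {γ : ℂ → ℂ} {A : ℤ → ℝ} (hF : TwistFamily real γ L A c)
    (h : Nrm real L r c (fun d => Real.log (A d)) R k F)
    (hk : ∀ d ∈ Twists real, analyticOrderAt (L d) 1 + k d = r d) {BB : Set (Cls real)}
    (hD : W92892c.DataB BB R (fun a => Real.log (A (sqf a))) (fun a => F (sqf a))
      (fun a => k (sqf a))) :
    FewExceptions real L A c r ∧
    ((∀ n : ℕ, ∃ M : ℕ, ∀ d ∈ Twists real, d.natAbs.primeFactors.card ≤ n → r d ≤ M) →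
      ∀ d ∈ Twists real, (∃ B : ℝ, ∀ C : Finset ℤ, ↑C ⊆ Twists real → IsCoset C → d ∈ C →
        C.card ≤ 2 ^ r d → ‖bsdQuot L r c C‖ ≤ B) → BSD (L d) (r d) (c d)) := by
  classical
  have hord : ∀ d ∈ Twists real, ∀ κ : ℕ, analyticOrderAt (L d) 1 + κ = r d → k d = κ := by
    intro d hd κ hκ
    have h1 := hk d hd
    rw [← hκ] at h1
    have h2 : analyticOrderAt (L d) 1 ≠ ⊤ := by
      intro h3
      rw [h3, top_add] at hκ
      exact ENat.top_ne_natCast _ hκ
    have h3 : ((k d : ℕ) : ℕ∞) = (κ : ℕ) := (WithTop.add_left_inj h2).1 h1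
    exact Nat.cast_injective h3
  have hcl : ∀ d ∈ Twists real, ∃ a : Cls real, sqf a = d := fun d hd => exists_sqf hd
  refine ⟨⟨?_, ?_, fun M => ⟨h.fin (W92892c.coreB_finite h.R0 hD M), ?_⟩⟩, ?_⟩
  · intro d hd hb
    rw [h.bsd d hd] at hb
    exact ⟨k d, Nat.one_le_iff_ne_zero.2 hb, hk d hd⟩
  · intro κ hκ
    obtain ⟨n, rfl⟩ : ∃ n, κ = n + 1 := ⟨κ - 1, by omega⟩
    obtain ⟨X, hX1, hX2⟩ := W92892c.coreB_count h.R0 hD n
    have hmem : ∀ d ∈ {d ∈ Twists real | analyticOrderAt (L d) 1 + (n + 1 : ℕ) = r d},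
        0 < A d ∧ Real.log (A d) ∈ X := by
      rintro d ⟨hd, hκd⟩
      refine ⟨hF.pos d hd, ?_⟩
      obtain ⟨a, ha⟩ := hcl d hd
      have h3 := hX2 a (by rw [ha]; exact hord d hd _ hκd)
      rwa [ha] at h3
    constructor
    · refine ((X.finite_toSet.biUnion (t := fun x => {d ∈ Twists real | A d ≤ Real.exp x})
        fun x _ => hF.fin _)).subset ?_
      intro d hd
      rw [Set.mem_iUnion₂]
      exact ⟨_, (hmem d hd).2, hd.1, (Real.exp_log (hmem d hd).1).ge⟩
    · have h4 := (ncard_image_le hmem).trans hX1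
      have h5 := Nat.div_mul_le_self ((n + 1) / 2 * ((n + 1) / 2 + 1)) 2
      omega
  · obtain ⟨X, hX1, hX2⟩ := W92892c.coreB_values h.R0 hD M
    refine le_trans (Nat.mul_le_mul_left _ (ncard_image_le ?_)) hX1
    rintro d ⟨hd, hr, hb⟩
    refine ⟨hF.pos d hd, ?_⟩
    obtain ⟨a, ha⟩ := hcl d hd
    rw [h.bsd d hd] at hb
    have h3 := hX2 a (by rw [ha]; exact Nat.one_le_iff_ne_zero.2 hb)
      (by rw [ha]; exact (h.rk d hd).trans hr)
    rwa [ha] at h3
  · intro hb d hd hC
    obtain ⟨B, hB⟩ := hC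
    obtain ⟨a, ha⟩ := exists_sqf hd
    have h1 := W92892c.coreB_zero (D := Cls real) cls_add_self om om_add om_one_infinite h.R0 hD
      (fun n => by
        obtain ⟨M, hM⟩ := bdd_cls hb n
        exact ⟨M, fun a ha => (h.rk _ (sqf_mem a)).trans (hM a ha)⟩) a
      ⟨B, fun V h0 hadd hV => h.cosets hB a ha V h0 hadd hV⟩
    rw [h.bsd d hd, ← ha]
    exact h1

/-- `A_d = A_0 d` for the squarefree products of primes of an infinite set. -/
def Conductors (A : ℤ → ℝ) : Prop :=
  ∃ S : Set ℕ, S.Infinite ∧ (∀ p ∈ S, p.Prime) ∧ ∃ A0 : ℝ, 0 < A0 ∧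
    ∀ d : ℕ, Squarefree d → (∀ p : ℕ, p.Prime → p ∣ d → p ∈ S) → A d = A0 * d

/-- For every elliptic curve: the literal formula over all multiquadratic fields is equivalent to the
conjecture for all twists over `ℚ`.  No hypothesis on the ranks. -/
theorem literal_noH1 {a2 a4 a6 : ℤ} (hΔ : (gcurve a2 a4 a6 1).Δ ≠ 0) (real : Bool) (γ : ℂ → ℂ)
    (L : ℤ → ℂ → ℂ) (A : ℤ → ℝ) (c : ℤ → ℂ) (hF : TwistFamily real γ L A c)
    (hcond : Conductors A) :
    List.TFAE [
      ∀ d ∈ Twists real, BSD (L d) (rk a2 a4 a6 d) (c d),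
      ∀ C : Finset ℤ, ↑C ⊆ Twists real → IsCoset C → ∀ d ∈ C, quotK a2 a4 a6 L c d C = 1,
      (∀ C : Finset ℤ, ↑C ⊆ Twists real → IsCoset C → C.card ≤ 4 → ∀ d ∈ C,
        quotK a2 a4 a6 L c d C = 1) ∧ ∀ d ∈ Twists real, ∃ B : ℝ,
        ∀ C : Finset ℤ, ↑C ⊆ Twists real → IsCoset C → d ∈ C →
          C.card ≤ 2 ^ rk a2 a4 a6 d → ‖quotK a2 a4 a6 L c d C‖ ≤ B] ∧
    ((∀ C : Finset ℤ, ↑C ⊆ Twists real → IsCoset C → C.card ≤ 4 → ∀ d ∈ C,
        quotK a2 a4 a6 L c d C = 1) → FewExceptions real L A c (rk a2 a4 a6)) := by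
  have key : (∀ C : Finset ℤ, ↑C ⊆ Twists real → IsCoset C → C.card ≤ 4 → ∀ d ∈ C,
        quotK a2 a4 a6 L c d C = 1) → FewExceptions real L A c (rk a2 a4 a6) ∧
      ((∀ d ∈ Twists real, ∃ B : ℝ, ∀ C : Finset ℤ, ↑C ⊆ Twists real → IsCoset C → d ∈ C →
          C.card ≤ 2 ^ rk a2 a4 a6 d → ‖quotK a2 a4 a6 L c d C‖ ≤ B) →
        ∀ d ∈ Twists real, BSD (L d) (rk a2 a4 a6 d) (c d)) := by
    intro h
    have hex : ∀ C : Finset ℤ, ↑C ⊆ Twists real → IsCoset C → C.card ≤ 4 →
        bsdQuot L (rk a2 a4 a6) c C = 1 := by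
      intro C hC hC' h4
      obtain ⟨e, he⟩ := hC'.nonempty
      rw [← quotK_eq hΔ L c real C hC' hC e he]
      exact h C hC hC' h4 e he
    obtain ⟨R, k, F, hN, hk⟩ := hF.nrm2 (r := rk a2 a4 a6)
      (fun d hd => hex {d} (by simpa using hd) (isCoset_singleton d) (by simp))
    have hlam : ∀ B : ℝ, {d ∈ Twists real | Real.log (A d) ≤ B}.Finite := by
      intro B
      refine (hF.fin (Real.exp B)).subset ?_
      rintro d ⟨hd, hB⟩
      exact ⟨hd, (Real.log_le_iff_le_exp (hF.pos d hd)).1 hB⟩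
    obtain ⟨S, hS, hSp, A0, hA0, hA⟩ := hcond
    have hD := hN.good_of_exact hlam hex (rk_bound hΔ real) S hS hSp (Real.log A0) (by
      intro p hp q hq l hl m hm h1 h2 h3 h4 h5 h6
      have hp' := hSp p hp
      have hq' := hSp q hq
      have hl' := hSp l hl
      have hm' := hSp m hm
      have c1 : Nat.Coprime p q := (Nat.coprime_primes hp' hq').2 h1
      have c2 : Nat.Coprime (p * q) l := Nat.Coprime.mul_left ((Nat.coprime_primes hp' hl').2 h2)
        ((Nat.coprime_primes hq' hl').2 h4)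
      have c3 : Nat.Coprime (p * q * l) m := Nat.Coprime.mul_left (Nat.Coprime.mul_left
        ((Nat.coprime_primes hp' hm').2 h3) ((Nat.coprime_primes hq' hm').2 h5))
        ((Nat.coprime_primes hl' hm').2 h6)
      have hsq : Squarefree (p * q * l * m) := by
        rw [Nat.squarefree_mul c3, Nat.squarefree_mul c2, Nat.squarefree_mul c1]
        exact ⟨⟨⟨hp'.prime.squarefree, hq'.prime.squarefree⟩, hl'.prime.squarefree⟩,
          hm'.prime.squarefree⟩
      have hd4 : ∀ x : ℕ, x.Prime → x ∣ p * q * l * m → x ∈ S := by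
        intro x hx hxd
        rw [hx.dvd_mul, hx.dvd_mul, hx.dvd_mul, Nat.prime_dvd_prime_iff_eq hx hp',
          Nat.prime_dvd_prime_iff_eq hx hq', Nat.prime_dvd_prime_iff_eq hx hl',
          Nat.prime_dvd_prime_iff_eq hx hm'] at hxd
        rcases hxd with ((rfl | rfl) | rfl) | rfl
        · exact hp
        · exact hq
        · exact hl
        · exact hm
      have h7 := hA (p * q * l * m) hsq hd4
      have e1 : ((p : ℤ) * q * l * m) = ((p * q * l * m : ℕ) : ℤ) := by push_cast; ring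
      show Real.log (A ((p : ℤ) * q * l * m)) = _
      have np : (p : ℝ) ≠ 0 := by exact_mod_cast hp'.ne_zero
      have nq : (q : ℝ) ≠ 0 := by exact_mod_cast hq'.ne_zero
      have nl : (l : ℝ) ≠ 0 := by exact_mod_cast hl'.ne_zero
      have nm : (m : ℝ) ≠ 0 := by exact_mod_cast hm'.ne_zero
      rw [e1, h7]
      push_cast
      rw [Real.log_mul hA0.ne' (by positivity), Real.log_mul (by positivity) nm,
        Real.log_mul (by positivity) nl, Real.log_mul np nq]
      ring)
    obtain ⟨h1, h2⟩ := few_of_data hF hN hk hD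
    refine ⟨h1, fun hB d hd => h2 (rk_bound hΔ real) d hd ?_⟩
    obtain ⟨B, hB⟩ := hB d hd
    refine ⟨B, fun C hC hC' hdC hcard => ?_⟩
    rw [← quotK_eq hΔ L c real C hC' hC d hdC]
    exact hB C hC hC' hdC hcard
  constructor
  · tfae_have 1 → 2 := by
      intro h C hC hC' d hd
      rw [quotK_eq hΔ L c real C hC' hC d hd]
      exact quot_of_bsd real γ L A c hF (rk a2 a4 a6) h C hC
    tfae_have 2 → 3 := by
      intro h
      refine ⟨fun C hC hC' _ => h C hC hC', fun d hd => ⟨1, ?_⟩⟩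
      intro C hC hC' hdC _
      rw [h C hC hC' d hdC]
      simp
    tfae_have 3 → 1 := by
      rintro ⟨h1, h2⟩
      exact (key h1).2 h2
    tfae_finish
  · intro h
    exact (key h).1

end MQV
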