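import Pool.Agent.W_92892c_h53.Rat

/-!
Density: a polynomial identity which holds eventually, in six iterated variables, holds identically.
-/

namespace W92892cH53

open Finset Filter Topology Polynomial

/-- Polynomial functions. -/
def PF (f : ℂ → ℂ) : Prop := ∃ g : ℂ[X], ∀ s, f s = g.eval s

theorem PF.const (c : ℂ) : PF fun _ => c := ⟨C c, fun s => by simp⟩

theorem PF.add {f g : ℂ → ℂ} (hf : PF f) (hg : PF g) : PF fun s => f s + g s := by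
  obtain ⟨p, hp⟩ := hf
  obtain ⟨q, hq⟩ := hg
  exact ⟨p + q, fun s => by rw [eval_add, ← hp, ← hq]⟩

theorem PF.mul {f g : ℂ → ℂ} (hf : PF f) (hg : PF g) : PF fun s => f s * g s := by
  obtain ⟨p, hp⟩ := hf
  obtain ⟨q, hq⟩ := hg
  exact ⟨p * q, fun s => by rw [eval_mul, ← hp, ← hq]⟩

theorem PF.sum {β : Type*} (s : Finset β) {f : β → ℂ → ℂ} (h : ∀ b ∈ s, PF (f b)) :
    PF fun z => ∑ b ∈ s, f b z := by
  classical
  induction s using Finset.induction_on with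
  | empty => simpa using PF.const 0
  | insert b s hb ih =>
    obtain ⟨p, hp⟩ := (h b (Finset.mem_insert_self _ _)).add
      (ih fun b' hb' => h b' (Finset.mem_insert_of_mem hb'))
    exact ⟨p, fun z => by rw [← hp]; beta_reduce; rw [Finset.sum_insert hb]⟩

theorem PF.eval_affine (P : ℂ[X]) (u v : ℂ) : PF fun s => P.eval (u * s + v) :=
  ⟨P.comp (C u * X + C v), fun s => by simp [eval_comp]⟩

/-- Power series with polynomial coefficients. -/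
def PFS (f : ℂ → PowerSeries ℂ) : Prop := ∀ l, PF fun s => PowerSeries.coeff l (f s)

theorem PFS.mul {f g : ℂ → PowerSeries ℂ} (hf : PFS f) (hg : PFS g) : PFS fun s => f s * g s := by
  intro l
  have h1 : PF fun s => ∑ q ∈ antidiagonal l,
      PowerSeries.coeff q.1 (f s) * PowerSeries.coeff q.2 (g s) :=
    PF.sum _ fun q _ => (hf q.1).mul (hg q.2)
  obtain ⟨p, hp⟩ := h1
  exact ⟨p, fun s => by rw [← hp]; beta_reduce; rw [PowerSeries.coeff_mul]⟩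

theorem pf_zero {𝓤 : Filter ℕ} [𝓤.NeBot] (hU : ∀ a, ∀ᶠ i in 𝓤, i ≠ a) {t : ℕ → ℂ}
    (ht : Function.Injective t) {f : ℂ → ℂ} (hf : PF f) (h : ∀ᶠ i in 𝓤, f (t i) = 0) (s : ℂ) :
    f s = 0 := by
  obtain ⟨g, hg⟩ := hf
  rw [hg]
  by_cases hg0 : g = 0
  · rw [hg0, eval_zero]
  · exfalso
    have hfin : (t ⁻¹' (g.roots.toFinset : Set ℂ)).Finite :=
      (Finset.finite_toSet _).preimage ht.injOn
    have h1 : ∀ᶠ i in 𝓤, ∀ a ∈ hfin.toFinset, i ≠ a := by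
      rw [Filter.eventually_all_finset]
      exact fun a _ => hU a
    obtain ⟨i, hi1, hi2⟩ := (h.and h1).exists
    refine hi2 i ?_ rfl
    rw [Set.Finite.mem_toFinset, Set.mem_preimage, Finset.mem_coe, Multiset.mem_toFinset,
      mem_roots hg0, IsRoot.def, ← hg]
    exact hi1

theorem dens6 {𝓤 : Filter ℕ} [𝓤.NeBot] (hU : ∀ a, ∀ᶠ i in 𝓤, i ≠ a) {t : ℕ → ℂ}
    (ht : Function.Injective t) (H : ℂ → ℂ → ℂ → ℂ → ℂ → ℂ → ℂ)
    (h1 : ∀ b c d e f, PF fun s => H s b c d e f) (h2 : ∀ a c d e f, PF fun s => H a s c d e f)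
    (h3 : ∀ a b d e f, PF fun s => H a b s d e f) (h4 : ∀ a b c e f, PF fun s => H a b c s e f)
    (h5 : ∀ a b c d f, PF fun s => H a b c d s f) (h6 : ∀ a b c d e, PF fun s => H a b c d e s)
    (h : ∀ᶠ a in 𝓤, ∀ᶠ b in 𝓤, ∀ᶠ c in 𝓤, ∀ᶠ d in 𝓤, ∀ᶠ e in 𝓤, ∀ᶠ f in 𝓤,
      H (t a) (t b) (t c) (t d) (t e) (t f) = 0) : ∀ a b c d e f, H a b c d e f = 0 := by
  have A6 : ∀ s6, ∀ᶠ a in 𝓤, ∀ᶠ b in 𝓤, ∀ᶠ c in 𝓤, ∀ᶠ d in 𝓤, ∀ᶠ e in 𝓤,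
      H (t a) (t b) (t c) (t d) (t e) s6 = 0 := fun s6 =>
    h.mono fun a ha => ha.mono fun b hb => hb.mono fun c hc => hc.mono fun d hd =>
      hd.mono fun e he => pf_zero hU ht (h6 _ _ _ _ _) he s6
  have A5 : ∀ s6 s5, ∀ᶠ a in 𝓤, ∀ᶠ b in 𝓤, ∀ᶠ c in 𝓤, ∀ᶠ d in 𝓤,
      H (t a) (t b) (t c) (t d) s5 s6 = 0 := fun s6 s5 =>
    (A6 s6).mono fun a ha => ha.mono fun b hb => hb.mono fun c hc => hc.mono fun d hd =>
      pf_zero hU ht (h5 _ _ _ _ _) hd s5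
  have A4 : ∀ s6 s5 s4, ∀ᶠ a in 𝓤, ∀ᶠ b in 𝓤, ∀ᶠ c in 𝓤,
      H (t a) (t b) (t c) s4 s5 s6 = 0 := fun s6 s5 s4 =>
    (A5 s6 s5).mono fun a ha => ha.mono fun b hb => hb.mono fun c hc =>
      pf_zero hU ht (h4 _ _ _ _ _) hc s4
  have A3 : ∀ s6 s5 s4 s3, ∀ᶠ a in 𝓤, ∀ᶠ b in 𝓤,
      H (t a) (t b) s3 s4 s5 s6 = 0 := fun s6 s5 s4 s3 =>
    (A4 s6 s5 s4).mono fun a ha => ha.mono fun b hb =>
      pf_zero hU ht (h3 _ _ _ _ _) hb s3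
  have A2 : ∀ s6 s5 s4 s3 s2, ∀ᶠ a in 𝓤, H (t a) s2 s3 s4 s5 s6 = 0 := fun s6 s5 s4 s3 s2 =>
    (A3 s6 s5 s4 s3).mono fun a ha => pf_zero hU ht (h2 _ _ _ _ _) ha s2
  intro a b c d e f
  exact pf_zero hU ht (h1 _ _ _ _ _) (A2 f e d c b) a

/-- The series of the values of the polynomials `P l`, `l ≤ n`. -/
noncomputable def psx (n : ℕ) (P : ℕ → ℂ[X]) (x : ℂ) : PowerSeries ℂ :=
  PowerSeries.mk fun l => if l < n + 1 then (P l).eval x else 0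

theorem coeff_psx (n : ℕ) (P : ℕ → ℂ[X]) (x : ℂ) (l : ℕ) :
    PowerSeries.coeff l (psx n P x) = if l < n + 1 then (P l).eval x else 0 := by
  rw [psx, PowerSeries.coeff_mk]

theorem psx_affine (n : ℕ) (P : ℕ → ℂ[X]) (u v : ℂ) : PFS fun s => psx n P (u * s + v) := by
  intro l
  by_cases hl : l < n + 1
  · obtain ⟨g, hg⟩ := PF.eval_affine (P l) u v
    exact ⟨g, fun s => by rw [← hg]; beta_reduce; rw [coeff_psx, if_pos hl]⟩
  · exact ⟨0, fun s => by beta_reduce; rw [coeff_psx, if_neg hl, eval_zero]⟩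

/-- The defect of the four-term identity. -/
noncomputable def quad (n k : ℕ) (P : ℕ → ℂ[X]) (x₁ x₂ x₃ x₄ : ℂ) : ℂ :=
  PowerSeries.coeff n (psx n P x₁ * psx n P x₂ * psx n P x₃ * psx n P x₄) -
    (P k).eval x₁ * (P k).eval x₂ * (P k).eval x₃ * (P k).eval x₄

theorem quad_affine (n k : ℕ) (P : ℕ → ℂ[X]) (u₁ v₁ u₂ v₂ u₃ v₃ u₄ v₄ : ℂ) :
    PF fun s => quad n k P (u₁ * s + v₁) (u₂ * s + v₂) (u₃ * s + v₃) (u₄ * s + v₄) := by
  have h1 := ((((psx_affine n P u₁ v₁).mul (psx_affine n P u₂ v₂)).mul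
    (psx_affine n P u₃ v₃)).mul (psx_affine n P u₄ v₄)) n
  have h2 := (((PF.eval_affine (P k) u₁ v₁).mul (PF.eval_affine (P k) u₂ v₂)).mul
    (PF.eval_affine (P k) u₃ v₃)).mul (PF.eval_affine (P k) u₄ v₄)
  obtain ⟨p, hp⟩ := h1.add ((PF.const (-1)).mul h2)
  refine ⟨p, fun s => ?_⟩
  rw [← hp]
  beta_reduce
  unfold quad
  ring

/-- The parameter of a sum of three terms. -/
def arg3 (c a b d : ℂ) : ℂ := c - (a + b + d)

theorem quad_all {𝓤 : Filter ℕ} [𝓤.NeBot] (hU : ∀ a, ∀ᶠ i in 𝓤, i ≠ a) {t : ℕ → ℂ}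
    (ht : Function.Injective t) (n k : ℕ) (P : ℕ → ℂ[X]) (c : ℂ)
    (h : ∀ᶠ a in 𝓤, ∀ᶠ b in 𝓤, ∀ᶠ c' in 𝓤, ∀ᶠ d in 𝓤, ∀ᶠ e in 𝓤, ∀ᶠ f in 𝓤,
      quad n k P (arg3 c (t a) (t b) (t c')) (arg3 c (t a) (t d) (t e))
        (arg3 c (t b) (t d) (t f)) (arg3 c (t c') (t e) (t f)) = 0) :
    ∀ x₁ x₂ x₃ x₄ : ℂ, quad n k P x₁ x₂ x₃ x₄ = 0 := by
  have key : ∀ a b c' d e f : ℂ, quad n k P (arg3 c a b c') (arg3 c a d e)
        (arg3 c b d f) (arg3 c c' e f) = 0 := by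
    refine dens6 hU ht (fun a b c' d e f => quad n k P (arg3 c a b c') (arg3 c a d e)
        (arg3 c b d f) (arg3 c c' e f)) ?_ ?_ ?_ ?_ ?_ ?_ h
    · intro b c' d e f
      obtain ⟨g, hg⟩ := quad_affine n k P (-1) (c - (b + c')) (-1) (c - (d + e)) 0
        (arg3 c b d f) 0 (arg3 c c' e f)
      refine ⟨g, fun s => ?_⟩
      rw [← hg]
      beta_reduce
      congr 1 <;> simp only [arg3] <;> ring
    · intro a c' d e f
      obtain ⟨g, hg⟩ := quad_affine n k P (-1) (c - (a + c')) 0 (arg3 c a d e) (-1)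
        (c - (d + f)) 0 (arg3 c c' e f)
      refine ⟨g, fun s => ?_⟩
      rw [← hg]
      beta_reduce
      congr 1 <;> simp only [arg3] <;> ring
    · intro a b d e f
      obtain ⟨g, hg⟩ := quad_affine n k P (-1) (c - (a + b)) 0 (arg3 c a d e) 0
        (arg3 c b d f) (-1) (c - (e + f))
      refine ⟨g, fun s => ?_⟩
      rw [← hg]
      beta_reduce
      congr 1 <;> simp only [arg3] <;> ring
    · intro a b c' e f
      obtain ⟨g, hg⟩ := quad_affine n k P 0 (arg3 c a b c') (-1) (c - (a + e)) (-1)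
        (c - (b + f)) 0 (arg3 c c' e f)
      refine ⟨g, fun s => ?_⟩
      rw [← hg]
      beta_reduce
      congr 1 <;> simp only [arg3] <;> ring
    · intro a b c' d f
      obtain ⟨g, hg⟩ := quad_affine n k P 0 (arg3 c a b c') (-1) (c - (a + d)) 0
        (arg3 c b d f) (-1) (c - (c' + f))
      refine ⟨g, fun s => ?_⟩
      rw [← hg]
      beta_reduce
      congr 1 <;> simp only [arg3] <;> ring
    · intro a b c' d e
      obtain ⟨g, hg⟩ := quad_affine n k P 0 (arg3 c a b c') 0 (arg3 c a d e) (-1)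
        (c - (b + d)) (-1) (c - (c' + e))
      refine ⟨g, fun s => ?_⟩
      rw [← hg]
      beta_reduce
      congr 1 <;> simp only [arg3] <;> ring
  intro x₁ x₂ x₃ x₄
  have h1 := key (c - x₂) (((x₂ - x₁) + (c - x₃) - (c - x₄)) / 2)
    (((x₂ - x₁) + (c - x₄) - (c - x₃)) / 2) 0 0 (((c - x₃) + (c - x₄) - (x₂ - x₁)) / 2)
  have a1 : arg3 c (c - x₂) (((x₂ - x₁) + (c - x₃) - (c - x₄)) / 2)
    (((x₂ - x₁) + (c - x₄) - (c - x₃)) / 2) = x₁ := by rw [arg3]; ring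
  have a2 : arg3 c (c - x₂) 0 0 = x₂ := by rw [arg3]; ring
  have a3 : arg3 c (((x₂ - x₁) + (c - x₃) - (c - x₄)) / 2) 0
    (((c - x₃) + (c - x₄) - (x₂ - x₁)) / 2) = x₃ := by rw [arg3]; ring
  have a4 : arg3 c (((x₂ - x₁) + (c - x₄) - (c - x₃)) / 2) 0
    (((c - x₃) + (c - x₄) - (x₂ - x₁)) / 2) = x₄ := by rw [arg3]; ring
  rw [a1, a2, a3, a4] at h1
  exact h1

theorem ps_add {n : ℕ} (f g : Fin (n + 1) → ℂ) : ps (f + g) = ps f + ps g := by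
  ext l
  rw [map_add]
  unfold ps
  rw [PowerSeries.coeff_mk, PowerSeries.coeff_mk, PowerSeries.coeff_mk]
  split_ifs <;> simp

theorem ps_smul {n : ℕ} (c : ℂ) (f : Fin (n + 1) → ℂ) : ps (c • f) = PowerSeries.C c * ps f := by
  ext l
  rw [PowerSeries.coeff_C_mul]
  unfold ps
  rw [PowerSeries.coeff_mk, PowerSeries.coeff_mk]
  split_ifs <;> simp

theorem ps_zero {n : ℕ} : ps (0 : Fin (n + 1) → ℂ) = 0 := by
  ext l
  unfold ps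
  rw [PowerSeries.coeff_mk]
  simp

/-- The span of the vectors of values. -/
noncomputable def US (n : ℕ) (P : ℕ → ℂ[X]) : Submodule ℂ (Fin (n + 1) → ℂ) :=
  Submodule.span ℂ (Set.range fun x : ℂ => fun l : Fin (n + 1) => (P l).eval x)

theorem ps_range (n : ℕ) (P : ℕ → ℂ[X]) (x : ℂ) :
    ps (fun l : Fin (n + 1) => (P l).eval x) = psx n P x := by
  ext l
  rw [coeff_psx]
  unfold ps
  rw [PowerSeries.coeff_mk]
  split_ifs <;> rfl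

theorem quad_span (n : ℕ) (k : Fin (n + 1)) (P : ℕ → ℂ[X])
    (h : ∀ x₁ x₂ x₃ x₄ : ℂ, quad n k P x₁ x₂ x₃ x₄ = 0) :
    ∀ f₁ ∈ US n P, ∀ f₂ ∈ US n P, ∀ f₃ ∈ US n P, ∀ f₄ ∈ US n P,
      PowerSeries.coeff n (ps f₁ * ps f₂ * ps f₃ * ps f₄) = f₁ k * f₂ k * f₃ k * f₄ k := by
  -- the four-linear defect
  let T : (Fin (n + 1) → ℂ) → (Fin (n + 1) → ℂ) → (Fin (n + 1) → ℂ) → (Fin (n + 1) → ℂ) → ℂ :=
    fun f₁ f₂ f₃ f₄ => PowerSeries.coeff n (ps f₁ * ps f₂ * ps f₃ * ps f₄) -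
      f₁ k * f₂ k * f₃ k * f₄ k
  have T1a : ∀ f g f₂ f₃ f₄, T (f + g) f₂ f₃ f₄ = T f f₂ f₃ f₄ + T g f₂ f₃ f₄ := by
    intro f g f₂ f₃ f₄
    simp only [T, ps_add, add_mul, map_add, Pi.add_apply]
    ring
  have T1s : ∀ c f f₂ f₃ f₄, T (c • f) f₂ f₃ f₄ = c * T f f₂ f₃ f₄ := by
    intro c f f₂ f₃ f₄
    simp only [T, ps_smul, mul_assoc, PowerSeries.coeff_C_mul, Pi.smul_apply, smul_eq_mul]
    ring
  have Tsw : ∀ f₁ f₂ f₃ f₄, T f₁ f₂ f₃ f₄ = T f₂ f₁ f₃ f₄ := by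
    intro f₁ f₂ f₃ f₄
    simp only [T]
    rw [mul_comm (ps f₁) (ps f₂)]
    ring
  have Tsw3 : ∀ f₁ f₂ f₃ f₄, T f₁ f₂ f₃ f₄ = T f₃ f₂ f₁ f₄ := by
    intro f₁ f₂ f₃ f₄
    simp only [T]
    rw [show ps f₁ * ps f₂ * ps f₃ * ps f₄ = ps f₃ * ps f₂ * ps f₁ * ps f₄ by ring]
    ring
  have Tsw4 : ∀ f₁ f₂ f₃ f₄, T f₁ f₂ f₃ f₄ = T f₄ f₂ f₃ f₁ := by
    intro f₁ f₂ f₃ f₄
    simp only [T]
    rw [show ps f₁ * ps f₂ * ps f₃ * ps f₄ = ps f₄ * ps f₂ * ps f₃ * ps f₁ by ring]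
    ring
  have T10 : ∀ f₂ f₃ f₄, T 0 f₂ f₃ f₄ = 0 := by
    intro f₂ f₃ f₄
    simp [T, ps_zero]
  -- extension in the first variable
  have ext1 : ∀ f₂ f₃ f₄, (∀ x : ℂ, T (fun l : Fin (n + 1) => (P l).eval x) f₂ f₃ f₄ = 0) →
      ∀ f₁ ∈ US n P, T f₁ f₂ f₃ f₄ = 0 := by
    intro f₂ f₃ f₄ h0 f₁ hf₁
    induction hf₁ using Submodule.span_induction with
    | mem y hy =>
      obtain ⟨x, rfl⟩ := hy
      exact h0 x
    | zero => exact T10 _ _ _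
    | add y z _ _ hy hz => rw [T1a, hy, hz, add_zero]
    | smul c y _ hy => rw [T1s, hy, mul_zero]
  have base : ∀ x₁ x₂ x₃ x₄ : ℂ, T (fun l : Fin (n + 1) => (P l).eval x₁)
      (fun l : Fin (n + 1) => (P l).eval x₂) (fun l : Fin (n + 1) => (P l).eval x₃)
      (fun l : Fin (n + 1) => (P l).eval x₄) = 0 := by
    intro x₁ x₂ x₃ x₄
    have h1 := h x₁ x₂ x₃ x₄
    simp only [T, ps_range]
    exact h1
  intro f₁ hf₁ f₂ hf₂ f₃ hf₃ f₄ hf₄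
  have s1 : ∀ x₂ x₃ x₄ : ℂ, T f₁ (fun l : Fin (n + 1) => (P l).eval x₂)
      (fun l : Fin (n + 1) => (P l).eval x₃) (fun l : Fin (n + 1) => (P l).eval x₄) = 0 :=
    fun x₂ x₃ x₄ => ext1 _ _ _ (fun x₁ => base x₁ x₂ x₃ x₄) f₁ hf₁
  have s2 : ∀ x₃ x₄ : ℂ, T f₁ f₂
      (fun l : Fin (n + 1) => (P l).eval x₃) (fun l : Fin (n + 1) => (P l).eval x₄) = 0 := by
    intro x₃ x₄
    rw [Tsw]
    exact ext1 _ _ _ (fun x₂ => by rw [Tsw]; exact s1 x₂ x₃ x₄) f₂ hf₂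
  have s3 : ∀ x₄ : ℂ, T f₁ f₂ f₃ (fun l : Fin (n + 1) => (P l).eval x₄) = 0 := by
    intro x₄
    rw [Tsw3]
    exact ext1 _ _ _ (fun x₃ => by rw [Tsw3]; exact s2 x₃ x₄) f₃ hf₃
  have s4 : T f₁ f₂ f₃ f₄ = 0 := by
    rw [Tsw4]
    exact ext1 _ _ _ (fun x₄ => by rw [Tsw4]; exact s3 x₄) f₄ hf₄
  exact sub_eq_zero.1 s4

end W92892cH53
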