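import Pool.Agent.W_92892c_h53.Dens
import Pool.Agent.W_92892c_h28.Core

/-!
Iterated limits along an ultrafilter.
-/

namespace W92892cH53

open Finset Filter Topology Polynomial

/-- Three iterated variables. -/
def E3 (𝓤 : Filter ℕ) : Filter (ℕ × ℕ × ℕ) :=
  𝓤.bind fun i => 𝓤.bind fun j => 𝓤.map fun l => (i, j, l)

theorem eventually_E3 {𝓤 : Filter ℕ} {φ : ℕ × ℕ × ℕ → Prop} :
    (∀ᶠ a in E3 𝓤, φ a) ↔ ∀ᶠ i in 𝓤, ∀ᶠ j in 𝓤, ∀ᶠ l in 𝓤, φ (i, j, l) := by
  unfold E3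
  rw [Filter.eventually_bind]
  refine Filter.eventually_congr (Eventually.of_forall fun i => ?_)
  rw [Filter.eventually_bind]
  refine Filter.eventually_congr (Eventually.of_forall fun j => ?_)
  rw [Filter.eventually_map]

instance E3_neBot {𝓤 : Filter ℕ} [𝓤.NeBot] : (E3 𝓤).NeBot := by
  constructor
  intro h
  have h1 : ∀ᶠ a in E3 𝓤, False := by rw [h]; exact Filter.eventually_bot
  rw [eventually_E3] at h1
  simp only [Filter.eventually_const] at h1

/-- The four triples of a coset with four elements. -/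
theorem six_of_E3 {𝓤 : Filter ℕ} {φ : ℕ × ℕ × ℕ → Prop} (h : ∀ᶠ a in E3 𝓤, φ a) :
    ∀ᶠ a in 𝓤, ∀ᶠ b in 𝓤, ∀ᶠ c in 𝓤, ∀ᶠ d in 𝓤, ∀ᶠ e in 𝓤, ∀ᶠ f in 𝓤,
      φ (a, b, c) ∧ φ (a, d, e) ∧ φ (b, d, f) ∧ φ (c, e, f) := by
  rw [eventually_E3] at h
  filter_upwards [h] with a ha
  filter_upwards [ha, h] with b hb1 hb2
  filter_upwards [hb1, h] with c hc1 hc2
  filter_upwards [ha, hb2] with d hd1 hd2
  filter_upwards [hd1, hc2] with e he1 he2
  filter_upwards [hd2, he2] with f hf1 hf2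
  exact ⟨hc1, he1, hf1, hf2⟩

theorem exists_const {𝓤 : Ultrafilter ℕ} {M : ℕ} (f : ℕ → ℕ) (hf : ∀ i, f i ≤ M) :
    ∃ m, ∀ᶠ i in (𝓤 : Filter ℕ), f i = m := by
  have h1 : ∀ᶠ i in (𝓤 : Filter ℕ), ∃ m ∈ range (M + 1), f i = m :=
    Eventually.of_forall fun i => ⟨f i, Finset.mem_range.2 (by have := hf i; omega), rfl⟩
  by_contra hcon
  push Not at hcon
  have h2 : ∀ m ∈ range (M + 1), ∀ᶠ i in (𝓤 : Filter ℕ), f i ≠ m := by
    intro m _
    exact hcon m
  have h3 := (Filter.eventually_all_finset (range (M + 1))).2 h2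
  obtain ⟨i, hi1, hi2⟩ := (h1.and h3).exists
  obtain ⟨m, hm, hfm⟩ := hi1
  exact hi2 m hm hfm

/-- A bounded function of four indices has an iterated limit in the last three. -/
theorem exists_const4 {𝓤 : Ultrafilter ℕ} {M : ℕ} (f : ℕ → ℕ → ℕ → ℕ → ℕ)
    (hf : ∀ i j l m, f i j l m ≤ M) :
    ∃ κ, ∀ᶠ i in (𝓤 : Filter ℕ), ∀ᶠ a in E3 (𝓤 : Filter ℕ), f i a.1 a.2.1 a.2.2 = κ := by
  have h1 : ∀ i j l, ∃ m, m ≤ M ∧ ∀ᶠ n in (𝓤 : Filter ℕ), f i j l n = m := by
    intro i j l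
    obtain ⟨m, hm⟩ := exists_const (𝓤 := 𝓤) (f i j l) (hf i j l)
    obtain ⟨n, hn⟩ := hm.exists
    exact ⟨m, hn ▸ hf i j l n, hm⟩
  choose g1 hg1M hg1 using h1
  have h2 : ∀ i j, ∃ m, m ≤ M ∧ ∀ᶠ l in (𝓤 : Filter ℕ), g1 i j l = m := by
    intro i j
    obtain ⟨m, hm⟩ := exists_const (𝓤 := 𝓤) (g1 i j) (hg1M i j)
    obtain ⟨n, hn⟩ := hm.exists
    exact ⟨m, hn ▸ hg1M i j n, hm⟩
  choose g2 hg2M hg2 using h2
  have h3 : ∀ i, ∃ m, m ≤ M ∧ ∀ᶠ j in (𝓤 : Filter ℕ), g2 i j = m := by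
    intro i
    obtain ⟨m, hm⟩ := exists_const (𝓤 := 𝓤) (g2 i) (hg2M i)
    obtain ⟨n, hn⟩ := hm.exists
    exact ⟨m, hn ▸ hg2M i n, hm⟩
  choose g3 hg3M hg3 using h3
  obtain ⟨κ, hκ⟩ := exists_const (𝓤 := 𝓤) g3 hg3M
  refine ⟨κ, ?_⟩
  filter_upwards [hκ] with i hi
  rw [eventually_E3]
  filter_upwards [hg3 i] with j hj
  filter_upwards [hg2 i j] with l hl
  filter_upwards [hg1 i j l] with m hm
  rw [hm, hl, hj, hi]

theorem coeff_mul_congr {n : ℕ} {f f' g g' : PowerSeries ℂ}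
    (hf : ∀ l ≤ n, PowerSeries.coeff l f = PowerSeries.coeff l f')
    (hg : ∀ l ≤ n, PowerSeries.coeff l g = PowerSeries.coeff l g') :
    ∀ l ≤ n, PowerSeries.coeff l (f * g) = PowerSeries.coeff l (f' * g') := by
  intro l hl
  rw [PowerSeries.coeff_mul, PowerSeries.coeff_mul]
  refine Finset.sum_congr rfl fun q hq => ?_
  rw [HasAntidiagonal.mem_antidiagonal] at hq
  rw [hf q.1 (by omega), hg q.2 (by omega)]

/-- A space of truncated series containing types with unbounded parameters is large. -/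
theorem finrank_ge {n : ℕ} {G : PowerSeries ℂ} (hG : PowerSeries.coeff 0 G = 1)
    (U : Submodule ℂ (Fin (n + 1) → ℂ)) (x : ℕ → ℂ)
    (hx : Tendsto (fun i => ‖x i‖) atTop atTop) (F : ℕ → PowerSeries ℂ)
    (hF : ∀ i, W92892c.IsType G (x i) (F i)) (hU : ∀ i, vec n (F i) ∈ U) :
    n + 1 - n / 2 ≤ Module.finrank ℂ U := by
  classical
  let T : (Fin (n + 1) → ℂ) →ₗ[ℂ] Module.Dual ℂ U :=
    { toFun := fun v =>
        { toFun := fun b => ∑ l, v l * (b : Fin (n + 1) → ℂ) l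
          map_add' := by
            intro a b
            simp only [Submodule.coe_add, Pi.add_apply, mul_add, Finset.sum_add_distrib]
          map_smul' := by
            intro c a
            simp only [Submodule.coe_smul, Pi.smul_apply, smul_eq_mul, RingHom.id_apply,
              Finset.mul_sum]
            exact Finset.sum_congr rfl fun l _ => by ring }
      map_add' := by
        intro a b
        ext c
        simp only [Pi.add_apply, add_mul, Finset.sum_add_distrib, LinearMap.coe_mk,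
          AddHom.coe_mk, LinearMap.add_apply]
      map_smul' := by
        intro c a
        ext b
        simp only [Pi.smul_apply, smul_eq_mul, RingHom.id_apply, LinearMap.coe_mk,
          AddHom.coe_mk, LinearMap.smul_apply, Finset.mul_sum]
        exact Finset.sum_congr rfl fun l _ => by ring }
  have h1 := LinearMap.finrank_range_add_finrank_ker T
  have h2 : Module.finrank ℂ (LinearMap.range T) ≤ Module.finrank ℂ U := by
    refine (Submodule.finrank_le _).trans ?_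
    rw [Subspace.dual_finrank_eq]
  rw [Module.finrank_fin_fun] at h1
  have h3 : Module.finrank ℂ (LinearMap.ker T) ≤ n / 2 := by
    refine W92892c.finrank_le_half hG hx hF n (LinearMap.ker T) ?_
    intro φ hφ i
    have h4 : T φ ⟨vec n (F i), hU i⟩ = 0 := by
      rw [LinearMap.mem_ker.1 hφ]; rfl
    exact h4
  omega

end W92892cH53
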