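import Pool.Agent.W_52423f_h30.HtB

/-!
# Mordell's theorem from weak Mordell
-/

namespace CNF

open WeierstrassCurve WeierstrassCurve.Affine WeierstrassCurve.Affine.Point Height
open Pool.Agent.PTwist

variable {k : Type*} [Field k] [DecidableEq k] [AdmissibleAbsValues k] (V : WeierstrassCurve k)
  [V.IsElliptic]

theorem hx_two_sided : ∃ C : ℝ, ∀ P Q : V.toAffine.Point,
    |hx V (P + Q) + hx V (P - Q) - 2 * (hx V P + hx V Q)| ≤ C := by
  obtain ⟨C1, hC1⟩ := V.abs_logHeight_addSubMap_sub_two_mul_logHeight_le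
  obtain ⟨C2, hC2⟩ := logHeight_sym2_le k
  obtain ⟨C3, hC3⟩ := logHeight_sym2_ge k
  refine ⟨|C1| + 2 * |C2| + 2 * |C3| + |C2| + |C3|, fun P Q => ?_⟩
  obtain ⟨c, hc, he⟩ := HtA_addSub V P Q
  have h1 := hC1 (sym2x P Q)
  rw [he, logHeight_smul_eq_logHeight _ hc] at h1
  have h2 : ∀ P Q : V.toAffine.Point, logHeight (sym2x P Q) ≤ C2 + hx V P + hx V Q := by
    intro P Q
    have := hC2 (P.xRep 0) (P.xRep 1) (Q.xRep 0) (Q.xRep 1)
    rw [HtB_eta, HtB_eta] at this
    exact this
  have h3 : ∀ P Q : V.toAffine.Point, C3 + hx V P + hx V Q ≤ logHeight (sym2x P Q) := by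
    intro P Q
    have := @hC3 (P.xRep 0) (P.xRep 1) (Q.xRep 0) (Q.xRep 1)
      (by rw [HtB_eta]; exact xRep_ne_zero _) (by rw [HtB_eta]; exact xRep_ne_zero _)
    rw [HtB_eta, HtB_eta] at this
    exact this
  obtain ⟨h4, h5⟩ := abs_le.1 h1
  have a1 := h2 P Q
  have a2 := h3 P Q
  have a3 := h2 (P + Q) (P - Q)
  have a4 := h3 (P + Q) (P - Q)
  have b1 := le_abs_self C1
  have b2 := neg_abs_le C1
  have b3 := le_abs_self C2
  have b4 := neg_abs_le C2
  have b5 := le_abs_self C3
  have b6 := neg_abs_le C3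
  have b7 := abs_nonneg C2
  have b8 := abs_nonneg C3
  rw [abs_le]
  constructor <;> linarith

instance hx_northcott [Northcott (logHeight₁ (K := k))] : Northcott (hx V) := by
  constructor
  intro b
  have h1 : {x : k | logHeight₁ x ≤ b}.Finite := Northcott.finite_le b
  have h2 : {P : V.toAffine.Point | hx V P ≤ b} ⊆
      {0} ∪ {P : V.toAffine.Point | ∃ x ∈ {x : k | logHeight₁ x ≤ b}, P.xRep = ![x, 1]} := by
    intro P hP
    rcases P with _ | ⟨x, y, h⟩
    · left; rfl
    · right
      refine ⟨x, ?_, xRep_some h⟩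
      have : hx V (Point.some x y h) = logHeight₁ x := by
        rw [hx, xRep_some, logHeight₁_eq_logHeight]
      rw [Set.mem_setOf_eq] at hP ⊢
      rwa [← this]
  refine Set.Finite.subset (Set.Finite.union (Set.finite_singleton _) ?_) h2
  have h3 : {P : V.toAffine.Point | ∃ x ∈ {x : k | logHeight₁ x ≤ b}, P.xRep = ![x, 1]} =
      ⋃ x ∈ {x : k | logHeight₁ x ≤ b}, {P : V.toAffine.Point | P.xRep = ![x, 1]} := by
    ext P
    simp
  rw [h3]
  refine Set.Finite.biUnion h1 fun x _ => ?_
  -- at most two points with given `x`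
  by_cases hne : ∃ P : V.toAffine.Point, P.xRep = ![x, 1]
  · obtain ⟨P, hP⟩ := hne
    refine Set.Finite.subset (s := {P, -P}) (by simp) ?_
    intro Q hQ
    rw [Set.mem_setOf_eq] at hQ
    rcases P with _ | ⟨x1, y1, h1⟩
    · exfalso
      have := congrFun hP 1
      simp [← zero_def, xRep_zero] at this
    · rcases Q with _ | ⟨x2, y2, h2⟩
      · exfalso
        have := congrFun hQ 1
        simp [← zero_def, xRep_zero] at this
      · rw [xRep_some] at hP hQ
        have e1 : x1 = x := by simpa using congrFun hP 0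
        have e2 : x2 = x := by simpa using congrFun hQ 0
        rcases (X_eq_iff (h₁ := h2) (h₂ := h1)).mp (by rw [e1, e2]) with h | h
        · left; exact h
        · right; exact h
  · have : {P : V.toAffine.Point | P.xRep = ![x, 1]} = ∅ := by
      ext P
      simp only [Set.mem_setOf_eq, Set.mem_empty_iff_false, iff_false]
      exact fun h => hne ⟨P, h⟩
    rw [this]
    exact Set.finite_empty

/-- Mordell's theorem, given weak Mordell. -/
theorem fg_of_weak [Northcott (logHeight₁ (K := k))]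
    (h : (nsmulAddMonoidHom (α := V.toAffine.Point) 2).range.FiniteIndex) :
    AddGroup.FG V.toAffine.Point := by
  obtain ⟨C, hC⟩ := hx_two_sided V
  exact AddCommGroup.fg_of_descent' h (hx_nonneg V) hC

end CNF
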