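import Pool.Agent.W_92892c_h53.E3
import Pool.Agent.W_92892c_h28.Generic3

/-!
Orders: small isotropic spaces (L1) and the contradiction from the four-term identity (L3).
-/

namespace W92892cH53

open Finset Filter Topology Polynomial

theorem coeff_ps {n : ℕ} (f : Fin (n + 1) → ℂ) (l : ℕ) :
    PowerSeries.coeff l (ps f) = if h : l < n + 1 then f ⟨l, h⟩ else 0 := by
  unfold ps
  rw [PowerSeries.coeff_mk]

theorem coeff_ps_fin {n : ℕ} (f : Fin (n + 1) → ℂ) (l : Fin (n + 1)) :
    PowerSeries.coeff (l : ℕ) (ps f) = f l := by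
  rw [coeff_ps, dif_pos l.2]

theorem coeff_ps_vec {n : ℕ} (f : PowerSeries ℂ) {l : ℕ} (hl : l ≤ n) :
    PowerSeries.coeff l (ps (vec n f)) = PowerSeries.coeff l f := by
  rw [coeff_ps, dif_pos (by omega)]
  rfl

/-- Leading coefficient of a product of two truncated series of given orders. -/
theorem coeff_mul_orders {n : ℕ} {f g : PowerSeries ℂ} {i j : ℕ} (hij : i + j = n)
    (hf : ∀ l < i, PowerSeries.coeff l f = 0) (hg : ∀ l < j, PowerSeries.coeff l g = 0) :
    PowerSeries.coeff n (f * g) = PowerSeries.coeff i f * PowerSeries.coeff j g := by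
  rw [PowerSeries.coeff_mul, Finset.sum_eq_single (i, j)]
  · rintro ⟨a, b⟩ hab hne
    rw [HasAntidiagonal.mem_antidiagonal] at hab
    simp only at hab ⊢
    rcases lt_trichotomy a i with h | h | h
    · rw [hf a h, zero_mul]
    · exfalso
      apply hne
      ext <;> simp only <;> omega
    · rw [hg b (by omega), mul_zero]
  · intro h
    exfalso
    apply h
    rw [HasAntidiagonal.mem_antidiagonal]
    exact hij

/-- L3. -/
theorem orders_contra {κ : ℕ} (hκ : 1 ≤ κ) (U : Submodule ℂ (Fin (4 * κ + 1) → ℂ))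
    (hU : 2 * κ + 1 ≤ Module.finrank ℂ U) (h0 : ∃ f ∈ U, f 0 ≠ 0)
    (h : ∀ f₁ ∈ U, ∀ f₂ ∈ U, ∀ f₃ ∈ U, ∀ f₄ ∈ U,
      PowerSeries.coeff (4 * κ) (ps f₁ * ps f₂ * ps f₃ * ps f₄) =
        f₁ ⟨κ, by omega⟩ * f₂ ⟨κ, by omega⟩ * f₃ ⟨κ, by omega⟩ * f₄ ⟨κ, by omega⟩) : False := by
  obtain ⟨e, heU, he0⟩ := h0
  obtain ⟨o, Q, ho, hQU, hQo, hQ0⟩ := W92892c.distinct_orders (N := 2 * κ + 1) U hU
  -- two orders never add up to `4 κ`
  have key : ∀ s t : Fin (2 * κ + 1), (o s : ℕ) + (o t : ℕ) = 4 * κ → False := by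
    intro s t hst
    have hs0 : ∀ l < (o s : ℕ), PowerSeries.coeff l (ps (Q s)) = 0 := by
      intro l hl
      have hl' : l < 4 * κ + 1 := by have := (o s).2; omega
      rw [coeff_ps, dif_pos hl']
      exact hQ0 s _ (by rw [Fin.lt_def]; exact hl)
    have ht0 : ∀ l < (o t : ℕ), PowerSeries.coeff l (ps (Q t)) = 0 := by
      intro l hl
      have hl' : l < 4 * κ + 1 := by have := (o t).2; omega
      rw [coeff_ps, dif_pos hl']
      exact hQ0 t _ (by rw [Fin.lt_def]; exact hl)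
    have hprod : ∀ l < 4 * κ, PowerSeries.coeff l (ps (Q s) * ps (Q t)) = 0 := by
      intro l hl
      rw [PowerSeries.coeff_mul]
      refine Finset.sum_eq_zero fun q hq => ?_
      rw [HasAntidiagonal.mem_antidiagonal] at hq
      rcases lt_or_ge q.1 (o s : ℕ) with h1 | h1
      · rw [hs0 _ h1, zero_mul]
      · rw [ht0 _ (by omega), mul_zero]
    have h1 := h (Q s) (hQU s) (Q t) (hQU t) e heU e heU
    rw [mul_assoc (ps (Q s) * ps (Q t)), coeff_mul_orders (i := 4 * κ) (j := 0) (by omega) hprod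
      (by intro l hl; omega), coeff_mul_orders hst hs0 ht0, coeff_ps_fin, coeff_ps_fin,
      coeff_mul_orders (n := 0) (i := 0) (j := 0) rfl (by intro l hl; omega)
        (by intro l hl; omega)] at h1
    have h2 : PowerSeries.coeff 0 (ps e) = e 0 := coeff_ps_fin e 0
    rw [h2] at h1
    have h3 : Q s ⟨κ, by omega⟩ * Q t ⟨κ, by omega⟩ = 0 := by
      rcases Nat.lt_or_ge κ (o s : ℕ) with h4 | h4
      · rw [hQ0 s ⟨κ, by omega⟩ (by rw [Fin.lt_def]; exact h4), zero_mul]
      · rw [hQ0 t ⟨κ, by omega⟩ (by rw [Fin.lt_def]; show κ < (o t : ℕ); omega), mul_zero]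
    rw [h3, zero_mul, zero_mul] at h1
    exact mul_ne_zero (mul_ne_zero (hQo s) (hQo t)) (mul_ne_zero he0 he0) h1
  -- pigeonhole
  have hlt : ∀ s : Fin (2 * κ + 1), min (o s : ℕ) (4 * κ - (o s : ℕ)) < 2 * κ := by
    intro s
    have h1 : ¬ ((o s : ℕ) + (o s : ℕ) = 4 * κ) := key s s
    have h2 := (o s).2
    omega
  have hinj : Function.Injective (fun s : Fin (2 * κ + 1) =>
      (⟨min (o s : ℕ) (4 * κ - (o s : ℕ)), hlt s⟩ : Fin (2 * κ))) := by
    intro s t hst
    have h1 : min (o s : ℕ) (4 * κ - (o s : ℕ)) = min (o t : ℕ) (4 * κ - (o t : ℕ)) :=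
      congrArg Fin.val hst
    by_contra hne
    have h2 : (o s : ℕ) ≠ (o t : ℕ) := fun h3 => hne (ho.injective (Fin.ext h3))
    have h3 : ¬ ((o s : ℕ) + (o t : ℕ) = 4 * κ) := key s t
    have h4 := (o s).2
    have h5 := (o t).2
    omega
  have hcard := Fintype.card_le_of_injective _ hinj
  rw [Fintype.card_fin, Fintype.card_fin] at hcard
  omega

/-- The bilinear form. -/
noncomputable def bil (h : ℕ) (f g : Fin (2 * h + 1) → ℂ) : ℂ :=
  PowerSeries.coeff (2 * h) (ps f * ps g) - f ⟨h, by omega⟩ * g ⟨h, by omega⟩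

theorem bil_span (h : ℕ) (f : Fin (2 * h + 1) → ℂ) (s : Set (Fin (2 * h + 1) → ℂ))
    (hs : ∀ g ∈ s, bil h f g = 0) : ∀ g ∈ Submodule.span ℂ s, bil h f g = 0 := by
  intro g hg
  induction hg using Submodule.span_induction with
  | mem y hy => exact hs y hy
  | zero => simp [bil, ps_zero]
  | add y z _ _ hy hz =>
    have : bil h f (y + z) = bil h f y + bil h f z := by
      simp only [bil, ps_add, mul_add, map_add, Pi.add_apply]
      ring
    rw [this, hy, hz, add_zero]
  | smul c y _ hy =>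
    have : bil h f (c • y) = c * bil h f y := by
      simp only [bil, ps_smul, Pi.smul_apply, smul_eq_mul]
      rw [show ps f * (PowerSeries.C c * ps y) = PowerSeries.C c * (ps f * ps y) by ring,
        PowerSeries.coeff_C_mul]
      ring
    rw [this, hy, mul_zero]

theorem bil_comm (h : ℕ) (f g : Fin (2 * h + 1) → ℂ) : bil h f g = bil h g f := by
  unfold bil
  rw [mul_comm (ps f), mul_comm (f _)]

theorem isotropic_finrank (h : ℕ) (V : Submodule ℂ (Fin (2 * h + 1) → ℂ))
    (hV : ∀ f ∈ V, ∀ g ∈ V, bil h f g = 0) : Module.finrank ℂ V ≤ h + 1 := by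
  by_contra hcon
  push Not at hcon
  obtain ⟨o, Q, ho, hQV, hQo, hQ0⟩ := W92892c.distinct_orders (N := h + 2) V (by omega)
  have key : ∀ s t : Fin (h + 2), s ≠ t → (o s : ℕ) + (o t : ℕ) = 2 * h → False := by
    intro s t hne hst
    have hs0 : ∀ l < (o s : ℕ), PowerSeries.coeff l (ps (Q s)) = 0 := by
      intro l hl
      have hl' : l < 2 * h + 1 := by have := (o s).2; omega
      rw [coeff_ps, dif_pos hl']
      exact hQ0 s _ (by rw [Fin.lt_def]; exact hl)
    have ht0 : ∀ l < (o t : ℕ), PowerSeries.coeff l (ps (Q t)) = 0 := by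
      intro l hl
      have hl' : l < 2 * h + 1 := by have := (o t).2; omega
      rw [coeff_ps, dif_pos hl']
      exact hQ0 t _ (by rw [Fin.lt_def]; exact hl)
    have h1 := hV (Q s) (hQV s) (Q t) (hQV t)
    have hne' : (o s : ℕ) ≠ (o t : ℕ) := fun h3 => hne (ho.injective (Fin.ext h3))
    have h3 : Q s ⟨h, by omega⟩ * Q t ⟨h, by omega⟩ = 0 := by
      rcases Nat.lt_or_ge h (o s : ℕ) with h4 | h4
      · rw [hQ0 s ⟨h, by omega⟩ (by rw [Fin.lt_def]; exact h4), zero_mul]
      · rw [hQ0 t ⟨h, by omega⟩ (by rw [Fin.lt_def]; show h < (o t : ℕ); omega), mul_zero]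
    unfold bil at h1
    rw [coeff_mul_orders hst hs0 ht0, coeff_ps_fin, coeff_ps_fin, h3, sub_zero] at h1
    exact mul_ne_zero (hQo s) (hQo t) h1
  have hlt : ∀ s : Fin (h + 2), min (o s : ℕ) (2 * h - (o s : ℕ)) < h + 1 := by
    intro s
    have h2 := (o s).2
    omega
  have hinj : Function.Injective (fun s : Fin (h + 2) =>
      (⟨min (o s : ℕ) (2 * h - (o s : ℕ)), hlt s⟩ : Fin (h + 1))) := by
    intro s t hst
    have h1 : min (o s : ℕ) (2 * h - (o s : ℕ)) = min (o t : ℕ) (2 * h - (o t : ℕ)) :=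
      congrArg Fin.val hst
    by_contra hne
    have h2 : (o s : ℕ) ≠ (o t : ℕ) := fun h3 => hne (ho.injective (Fin.ext h3))
    have h3 : ¬ ((o s : ℕ) + (o t : ℕ) = 2 * h) := key s t hne
    have h4 := (o s).2
    have h5 := (o t).2
    omega
  have hcard := Fintype.card_le_of_injective _ hinj
  rw [Fintype.card_fin, Fintype.card_fin] at hcard
  omega

/-- L1. -/
theorem iso_rank {ι : Type*} (h : ℕ) (g : ι → PowerSeries ℂ)
    (hg : ∀ i, ∀ᶠ j in cofinite, PowerSeries.coeff (2 * h) (g i * g j) =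
      PowerSeries.coeff h (g i) * PowerSeries.coeff h (g j)) :
    ∃ S : Set ι, S.Finite ∧ Module.finrank ℂ (Submodule.span ℂ
      ((fun i => vec (2 * h) (g i)) '' Sᶜ)) ≤ h + 1 := by
  classical
  let W : Finset ι → Submodule ℂ (Fin (2 * h + 1) → ℂ) := fun S =>
    Submodule.span ℂ ((fun i => vec (2 * h) (g i)) '' (S : Set ι)ᶜ)
  obtain ⟨S, hS⟩ : ∃ S : Finset ι, ∀ T : Finset ι,
      Module.finrank ℂ (W S) ≤ Module.finrank ℂ (W T) := by
    have hne : (Set.range fun S : Finset ι => Module.finrank ℂ (W S)).Nonempty :=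
      Set.range_nonempty _
    obtain ⟨S, hS⟩ := Nat.sInf_mem hne
    refine ⟨S, fun T => ?_⟩
    show (fun S : Finset ι => Module.finrank ℂ (W S)) S ≤ _
    rw [hS]
    exact Nat.sInf_le ⟨T, rfl⟩
  have hmono : ∀ T : Finset ι, W (S ∪ T) = W S := by
    intro T
    refine Submodule.eq_of_le_of_finrank_le ?_ (hS _)
    refine Submodule.span_mono (Set.image_mono ?_)
    intro i hi hiS
    apply hi
    rw [Finset.coe_union]
    exact Or.inl hiS
  have hcoef : ∀ i j, PowerSeries.coeff (2 * h) (ps (vec (2 * h) (g i)) * ps (vec (2 * h) (g j)))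
      = PowerSeries.coeff (2 * h) (g i * g j) := fun i j =>
    coeff_mul_congr (n := 2 * h) (fun l hl => coeff_ps_vec _ hl) (fun l hl => coeff_ps_vec _ hl)
      _ le_rfl
  have h1 : ∀ i, ∀ f ∈ W S, bil h (vec (2 * h) (g i)) f = 0 := by
    intro i
    have hfin : {j | ¬ PowerSeries.coeff (2 * h) (g i * g j) =
      PowerSeries.coeff h (g i) * PowerSeries.coeff h (g j)}.Finite := hg i
    rw [← hmono hfin.toFinset]
    refine bil_span h _ _ ?_
    rintro _ ⟨j, hj, rfl⟩
    have hj' : PowerSeries.coeff (2 * h) (g i * g j) =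
      PowerSeries.coeff h (g i) * PowerSeries.coeff h (g j) := by
      by_contra hcon
      apply hj
      rw [Finset.coe_union]
      exact Or.inr (by rw [Set.Finite.coe_toFinset]; exact hcon)
    unfold bil
    rw [hcoef, hj']
    exact sub_self _
  refine ⟨S, S.finite_toSet, isotropic_finrank h _ ?_⟩
  intro f hf f' hf'
  rw [bil_comm]
  refine bil_span h f' _ ?_ f hf
  rintro _ ⟨j, _, rfl⟩
  rw [bil_comm]
  exact h1 j f' hf'

end W92892cH53
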