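import Mathlib

/-!
Families of power series whose coefficients are eventually rational functions of a parameter.
-/

namespace W92892cH53

open Finset Filter Topology Polynomial

/-- A vector as a power series. -/
noncomputable def ps {n : ℕ} (f : Fin (n + 1) → ℂ) : PowerSeries ℂ :=
  PowerSeries.mk fun l => if h : l < n + 1 then f ⟨l, h⟩ else 0

/-- The truncation of a power series. -/
noncomputable def vec (n : ℕ) (f : PowerSeries ℂ) : Fin (n + 1) → ℂ := fun l => PowerSeries.coeff l f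

/-- Eventually along `𝓕`, `c` is a rational function of `x`. -/
def IsRat {α : Type*} (𝓕 : Filter α) (x : α → ℂ) (c : α → ℂ) : Prop :=
  ∃ p q : ℂ[X], q ≠ 0 ∧ ∀ᶠ a in 𝓕, q.eval (x a) * c a = p.eval (x a)

variable {α : Type*} {𝓕 : Filter α} {x : α → ℂ}

theorem IsRat.const (c : ℂ) : IsRat 𝓕 x fun _ => c :=
  ⟨C c, 1, one_ne_zero, Eventually.of_forall fun a => by simp⟩

theorem IsRat.congr {c c' : α → ℂ} (h : IsRat 𝓕 x c) (hc : ∀ᶠ a in 𝓕, c a = c' a) :
    IsRat 𝓕 x c' := by
  obtain ⟨p, q, hq, hpq⟩ := h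
  refine ⟨p, q, hq, ?_⟩
  filter_upwards [hpq, hc] with a h1 h2
  rw [← h2, h1]

theorem IsRat.add {c c' : α → ℂ} (h : IsRat 𝓕 x c) (h' : IsRat 𝓕 x c') :
    IsRat 𝓕 x fun a => c a + c' a := by
  obtain ⟨p, q, hq, hpq⟩ := h
  obtain ⟨p', q', hq', hpq'⟩ := h'
  refine ⟨p * q' + p' * q, q * q', mul_ne_zero hq hq', ?_⟩
  filter_upwards [hpq, hpq'] with a h1 h2
  simp only [eval_add, eval_mul]
  rw [← h1, ← h2]
  ring

theorem IsRat.mul {c c' : α → ℂ} (h : IsRat 𝓕 x c) (h' : IsRat 𝓕 x c') :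
    IsRat 𝓕 x fun a => c a * c' a := by
  obtain ⟨p, q, hq, hpq⟩ := h
  obtain ⟨p', q', hq', hpq'⟩ := h'
  refine ⟨p * p', q * q', mul_ne_zero hq hq', ?_⟩
  filter_upwards [hpq, hpq'] with a h1 h2
  simp only [eval_mul]
  rw [← h1, ← h2]
  ring

theorem IsRat.sum {β : Type*} (s : Finset β) {c : β → α → ℂ} (h : ∀ b ∈ s, IsRat 𝓕 x (c b)) :
    IsRat 𝓕 x fun a => ∑ b ∈ s, c b a := by
  classical
  induction s using Finset.induction_on with
  | empty => simpa using IsRat.const (𝓕 := 𝓕) (x := x) 0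
  | insert b s hb ih =>
    have h1 := (h b (Finset.mem_insert_self _ _)).add
      (ih fun b' hb' => h b' (Finset.mem_insert_of_mem hb'))
    refine h1.congr (Eventually.of_forall fun a => ?_)
    rw [Finset.sum_insert hb]

/-- Change of the parameter by an affine map. -/
theorem IsRat.comp_affine {c : α → ℂ} {y : α → ℂ} (u v : ℂ) (hu : u ≠ 0)
    (hy : ∀ᶠ a in 𝓕, y a = u * x a + v) (h : IsRat 𝓕 y c) : IsRat 𝓕 x c := by
  obtain ⟨p, q, hq, hpq⟩ := h
  refine ⟨p.comp (C u * X + C v), q.comp (C u * X + C v), ?_, ?_⟩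
  · intro h0
    apply hq
    have h1 : (q.comp (C u * X + C v)).comp (C u⁻¹ * (X - C v)) = q := by
      rw [comp_assoc]
      have : (C u * X + C v).comp (C u⁻¹ * (X - C v)) = (X : ℂ[X]) := by
        simp only [add_comp, mul_comp, C_comp, X_comp]
        rw [← mul_assoc, ← C_mul, mul_inv_cancel₀ hu]
        simp
      rw [this, comp_X]
    rw [h0, zero_comp] at h1
    exact h1.symm
  · filter_upwards [hpq, hy] with a h1 h2
    simp only [eval_comp, eval_add, eval_mul, eval_C, eval_X]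
    rw [← h2, h1]

/-- All coefficients up to `N` are eventually rational functions of `x`. -/
def IsRatS (𝓕 : Filter α) (x : α → ℂ) (N : ℕ) (f : α → PowerSeries ℂ) : Prop :=
  ∀ l ≤ N, IsRat 𝓕 x fun a => PowerSeries.coeff l (f a)

theorem IsRatS.mul {N : ℕ} {f g : α → PowerSeries ℂ} (hf : IsRatS 𝓕 x N f)
    (hg : IsRatS 𝓕 x N g) : IsRatS 𝓕 x N fun a => f a * g a := by
  intro l hl
  have h1 : IsRat 𝓕 x fun a => ∑ q ∈ antidiagonal l,
      PowerSeries.coeff q.1 (f a) * PowerSeries.coeff q.2 (g a) := by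
    refine IsRat.sum _ fun q hq => ?_
    rw [HasAntidiagonal.mem_antidiagonal] at hq
    exact (hf q.1 (by omega)).mul (hg q.2 (by omega))
  refine h1.congr (Eventually.of_forall fun a => ?_)
  rw [PowerSeries.coeff_mul]

/-- The part below degree `l`. -/
noncomputable def low (l : ℕ) (f : PowerSeries ℂ) : PowerSeries ℂ :=
  PowerSeries.mk fun i => if i < l then PowerSeries.coeff i f else 0

theorem coeff_low (l i : ℕ) (f : PowerSeries ℂ) :
    PowerSeries.coeff i (low l f) = if i < l then PowerSeries.coeff i f else 0 := by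
  rw [low, PowerSeries.coeff_mk]

theorem coeff_sq_mul (l : ℕ) (hl : 1 ≤ l) (f h : PowerSeries ℂ) (hf : PowerSeries.coeff 0 f = 1)
    (hh : PowerSeries.coeff 0 h = 1) :
    PowerSeries.coeff l (f * f * h) =
      2 * PowerSeries.coeff l f + PowerSeries.coeff l (low l f * low l f * h) := by
  have hdvd : PowerSeries.X ^ l ∣ f - low l f := by
    rw [PowerSeries.X_pow_dvd_iff]
    intro i hi
    rw [map_sub, low, PowerSeries.coeff_mk, if_pos hi, sub_self]
  obtain ⟨g, hg⟩ := hdvd
  have hf' : f = low l f + PowerSeries.X ^ l * g := by rw [← hg]; ring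
  have hg0 : PowerSeries.coeff 0 g = PowerSeries.coeff l f := by
    have h1 : PowerSeries.coeff l f = PowerSeries.coeff l (low l f + PowerSeries.X ^ l * g) := by
      rw [← hf']
    rw [h1, map_add, low, PowerSeries.coeff_mk, if_neg (lt_irrefl l), zero_add,
      PowerSeries.coeff_X_pow_mul', if_pos le_rfl, Nat.sub_self]
  have hl0 : PowerSeries.coeff 0 (low l f) = 1 := by
    rw [low, PowerSeries.coeff_mk, if_pos (by omega), hf]
  have h2 : f * f * h = low l f * low l f * h + PowerSeries.X ^ l * (2 * (low l f * g * h))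
      + PowerSeries.X ^ (l + l) * (g * g * h) := by
    conv_lhs => rw [hf']
    rw [pow_add]
    ring
  rw [h2, map_add, map_add, PowerSeries.coeff_X_pow_mul', if_pos le_rfl, Nat.sub_self,
    PowerSeries.coeff_X_pow_mul', if_neg (by omega), add_zero, add_comm]
  congr 1
  have h3 : (2 : PowerSeries ℂ) * (low l f * g * h) = low l f * g * h + low l f * g * h := by ring
  rw [h3, map_add, ← two_mul]
  congr 1
  simp only [PowerSeries.coeff_zero_eq_constantCoeff_apply] at hl0 hg0 hh ⊢
  rw [map_mul, map_mul, hl0, hg0, hh, one_mul, mul_one]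

theorem IsRatS.sqrt {N : ℕ} {f g h : α → PowerSeries ℂ} (hf0 : ∀ a, PowerSeries.coeff 0 (f a) = 1)
    (hh0 : ∀ a, PowerSeries.coeff 0 (h a) = 1) (hg : IsRatS 𝓕 x N g) (hh : IsRatS 𝓕 x N h)
    (heq : ∀ᶠ a in 𝓕, f a * f a * h a = g a) : IsRatS 𝓕 x N f := by
  intro l
  induction l using Nat.strong_induction_on with
  | _ l ih =>
    intro hl
    rcases Nat.eq_zero_or_pos l with h0 | h0
    · subst h0
      exact (IsRat.const 1).congr (Eventually.of_forall fun a => (hf0 a).symm)
    · have hlow : IsRatS 𝓕 x N fun a => low l (f a) := by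
        intro i hi
        by_cases hil : i < l
        · refine (ih i hil hi).congr (Eventually.of_forall fun a => ?_)
          show PowerSeries.coeff i (f a) = PowerSeries.coeff i (low l (f a))
          rw [coeff_low, if_pos hil]
        · refine (IsRat.const 0).congr (Eventually.of_forall fun a => ?_)
          show (0 : ℂ) = PowerSeries.coeff i (low l (f a))
          rw [coeff_low, if_neg hil]
      have h1 := ((hlow.mul hlow).mul hh) l hl
      have h2 := (hg l hl).add ((IsRat.const (-1)).mul h1)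
      have h3 := (IsRat.const (1 / 2)).mul h2
      refine h3.congr ?_
      filter_upwards [heq] with a ha
      have h4 := coeff_sq_mul l h0 (f a) (h a) (hf0 a) (hh0 a)
      rw [ha] at h4
      linear_combination (1 / 2 : ℂ) * h4

/-- Common denominator. -/
theorem IsRatS.common {N : ℕ} {f : α → PowerSeries ℂ} (hf : IsRatS 𝓕 x N f) :
    ∃ (q : ℂ[X]) (P : ℕ → ℂ[X]), q ≠ 0 ∧
      ∀ᶠ a in 𝓕, ∀ l ≤ N, q.eval (x a) * PowerSeries.coeff l (f a) = (P l).eval (x a) := by
  have h1 : ∀ l : ℕ, ∃ p q : ℂ[X], q ≠ 0 ∧ (l ≤ N → ∀ᶠ a in 𝓕,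
      q.eval (x a) * PowerSeries.coeff l (f a) = p.eval (x a)) := by
    intro l
    by_cases hl : l ≤ N
    · obtain ⟨p, q, hq, hpq⟩ := hf l hl
      exact ⟨p, q, hq, fun _ => hpq⟩
    · exact ⟨0, 1, one_ne_zero, fun h => absurd h hl⟩
  choose p q hq hpq using h1
  refine ⟨∏ i ∈ range (N + 1), q i, fun l => p l * ∏ i ∈ (range (N + 1)).erase l, q i,
    Finset.prod_ne_zero_iff.2 fun i _ => hq i, ?_⟩
  have h2 : ∀ᶠ a in 𝓕, ∀ l ∈ range (N + 1),
      (q l).eval (x a) * PowerSeries.coeff l (f a) = (p l).eval (x a) := by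
    rw [Filter.eventually_all_finset]
    intro l hl
    exact hpq l (by rw [Finset.mem_range] at hl; omega)
  filter_upwards [h2] with a ha l hl
  have hmem : l ∈ range (N + 1) := Finset.mem_range.2 (by omega)
  rw [← Finset.mul_prod_erase _ _ hmem, eval_mul, eval_mul, ← ha l hmem]
  ring

end W92892cH53
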