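import Mathlib

/-!
# Positivity of the determinants `det (1 / (j a - i b)!)`
-/

namespace CNF

/-- `1 / m!` for `m ≥ 0`, else `0`. -/
noncomputable def gf (m : ℤ) : ℝ := if m < 0 then 0 else 1 / (m.toNat.factorial : ℝ)

theorem gf_neg {m : ℤ} (h : m < 0) : gf m = 0 := by rw [gf, if_pos h]

theorem gf_nat (m : ℕ) : gf (m : ℤ) = 1 / (m.factorial : ℝ) := by
  rw [gf, if_neg (by omega), Int.toNat_natCast]

theorem gf_zero : gf 0 = 1 := by
  have := gf_nat 0
  simpa using this

theorem gf_mul (m : ℤ) : (m : ℝ) * gf m = gf (m - 1) := by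
  rcases lt_trichotomy m 0 with h | h | h
  · rw [gf_neg h, gf_neg (by omega), mul_zero]
  · subst h
    rw [gf_neg (by omega : (0 : ℤ) - 1 < 0)]
    simp
  · obtain ⟨k, rfl⟩ : ∃ k : ℕ, m = ((k + 1 : ℕ) : ℤ) := ⟨(m - 1).toNat, by omega⟩
    have e : ((k + 1 : ℕ) : ℤ) - 1 = (k : ℤ) := by push_cast; ring
    rw [e, gf_nat, gf_nat, Nat.factorial_succ]
    have h1 : ((k.factorial : ℕ) : ℝ) ≠ 0 := by positivity
    push_cast
    field_simp

/-- The determinant. -/
noncomputable def DD {k : ℕ} (i j : Fin k → ℤ) : ℝ :=
  Matrix.det (fun b a : Fin k => gf (j a - i b))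

theorem DD_rec {k : ℕ} (i j : Fin k → ℤ) :
    ((∑ a, j a - ∑ a, i a : ℤ) : ℝ) * DD i j = ∑ a, DD i (Function.update j a (j a - 1)) := by
  have h1 : ∀ a : Fin k, DD i (Function.update j a (j a - 1)) =
      ∑ σ : Equiv.Perm (Fin k), (Equiv.Perm.sign σ : ℤ) * ((j a - i (σ a) : ℤ) : ℝ) *
        ∏ a', gf (j a' - i (σ a')) := by
    intro a
    rw [DD, Matrix.det_apply']
    refine Finset.sum_congr rfl fun σ _ => ?_
    rw [mul_assoc]
    congr 1
    rw [← Finset.mul_prod_erase Finset.univ _ (Finset.mem_univ a),
      ← Finset.mul_prod_erase Finset.univ (fun a' => gf (j a' - i (σ a'))) (Finset.mem_univ a)]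
    rw [Function.update_self, ← mul_assoc, gf_mul]
    have e : j a - 1 - i (σ a) = j a - i (σ a) - 1 := by ring
    rw [e]
    congr 1
    refine Finset.prod_congr rfl fun a' ha' => ?_
    rw [Function.update_of_ne (Finset.ne_of_mem_erase ha')]
  rw [Finset.sum_congr rfl fun a _ => h1 a, Finset.sum_comm, DD, Matrix.det_apply', Finset.mul_sum]
  refine Finset.sum_congr rfl fun σ _ => ?_
  rw [← Finset.sum_mul, ← Finset.mul_sum]
  have h2 : (∑ a, ((j a - i (σ a) : ℤ) : ℝ)) = ((∑ a, j a - ∑ a, i a : ℤ) : ℝ) := by
    rw [← Equiv.sum_comp σ i]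
    push_cast
    rw [Finset.sum_sub_distrib]
  rw [h2]
  ring

theorem DD_self {k : ℕ} {i : Fin k → ℤ} (hi : StrictMono i) : DD i i = 1 := by
  rw [DD, Matrix.det_of_upperTriangular]
  · simp [gf_zero]
  · intro b a hab
    exact gf_neg (by have := hi (show a < b from hab); omega)

theorem DD_dead {k : ℕ} {i j : Fin k → ℤ} (hi : StrictMono i) (hj : StrictMono j) (a : Fin k)
    (ha : j a = i a) : DD i (Function.update j a (j a - 1)) = 0 := by
  rw [DD, Matrix.det_apply']
  refine Finset.sum_eq_zero fun σ _ => ?_
  -- some `a' ≤ a` has `σ a' ≥ a`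
  obtain ⟨a', h1, h2⟩ : ∃ a' : Fin k, a' ≤ a ∧ a ≤ σ a' := by
    by_contra hcon
    push Not at hcon
    have h3 : (Finset.Iic a).image σ ⊆ Finset.Iio a := by
      intro b hb
      obtain ⟨c, hc, rfl⟩ := Finset.mem_image.1 hb
      exact Finset.mem_Iio.2 (hcon c (Finset.mem_Iic.1 hc))
    have h4 := Finset.card_le_card h3
    rw [Finset.card_image_of_injective _ σ.injective, Fin.card_Iic, Fin.card_Iio] at h4
    omega
  rw [Finset.prod_eq_zero (Finset.mem_univ a'), mul_zero]
  apply gf_neg
  have h3 : Function.update j a (j a - 1) a' ≤ j a - 1 := by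
    rcases eq_or_lt_of_le h1 with h | h
    · rw [h, Function.update_self]
    · rw [Function.update_of_ne h.ne]
      have := hj h
      omega
  have h4 := hi.monotone h2
  omega

theorem DD_eq {k : ℕ} (i j : Fin k → ℤ) {a b : Fin k} (hab : a ≠ b) (h : j a = j b) :
    DD i j = 0 := by
  rw [DD]
  apply Matrix.det_zero_of_column_eq hab
  intro c
  rw [h]

theorem DD_pos {k : ℕ} {i : Fin k → ℤ} (hi : StrictMono i) :
    ∀ (N : ℕ) (j : Fin k → ℤ), StrictMono j → (∀ a, i a ≤ j a) →
      (∑ a, (j a - i a)).toNat = N → 0 < DD i j := by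
  intro N
  induction N with
  | zero =>
    intro j hj hij hN
    have h0 : ∑ a, (j a - i a) = 0 := by
      have : 0 ≤ ∑ a, (j a - i a) := Finset.sum_nonneg fun a _ => by have := hij a; omega
      omega
    have h1 : ∀ a, j a - i a = 0 := fun a =>
      (Finset.sum_eq_zero_iff_of_nonneg (fun a _ => by have := hij a; omega)).1 h0 a
        (Finset.mem_univ a)
    have h2 : j = i := by
      funext a
      have := h1 a
      omega
    rw [h2, DD_self hi]
    exact one_pos
  | succ N ih =>
    intro j hj hij hN
    have hS : ∑ a, (j a - i a) = (N : ℤ) + 1 := by omega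
    have hS' : (∑ a, j a - ∑ a, i a : ℤ) = (N : ℤ) + 1 := by rw [← Finset.sum_sub_distrib, hS]
    have hrec := DD_rec i j
    rw [hS'] at hrec
    -- the three cases
    have key : ∀ a, (i a < j a ∧ (∀ b, b < a → j b < j a - 1)) →
        0 < DD i (Function.update j a (j a - 1)) := by
      intro a ⟨h1, h2⟩
      apply ih
      · intro b c hbc
        by_cases hb : b = a
        · subst hb
          rw [Function.update_self, Function.update_of_ne hbc.ne']
          have := hj hbc
          omega
        · by_cases hc : c = a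
          · subst hc
            rw [Function.update_self, Function.update_of_ne hb]
            exact h2 b hbc
          · rw [Function.update_of_ne hb, Function.update_of_ne hc]
            exact hj hbc
      · intro b
        by_cases hb : b = a
        · subst hb
          rw [Function.update_self]
          omega
        · rw [Function.update_of_ne hb]
          exact hij b
      · have h3 : ∑ b, (Function.update j a (j a - 1) b - i b) = ∑ b, (j b - i b) - 1 := by
          rw [← Finset.add_sum_erase Finset.univ _ (Finset.mem_univ a),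
            ← Finset.add_sum_erase Finset.univ (fun b => j b - i b) (Finset.mem_univ a),
            Function.update_self]
          have h4 : ∑ b ∈ Finset.univ.erase a, (Function.update j a (j a - 1) b - i b) =
              ∑ b ∈ Finset.univ.erase a, (j b - i b) := by
            refine Finset.sum_congr rfl fun b hb => ?_
            rw [Function.update_of_ne (Finset.ne_of_mem_erase hb)]
          rw [h4]
          ring
        rw [h3, hS]
        omega
    have nonneg : ∀ a, 0 ≤ DD i (Function.update j a (j a - 1)) := by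
      intro a
      by_cases h1 : i a < j a
      · by_cases h2 : ∀ b, b < a → j b < j a - 1
        · exact (key a ⟨h1, h2⟩).le
        · push Not at h2
          obtain ⟨b, hb, hb'⟩ := h2
          have h3 := hj hb
          have h4 : j b = j a - 1 := by omega
          rw [DD_eq i _ (a := b) (b := a) hb.ne (by
            rw [Function.update_self, Function.update_of_ne hb.ne, h4])]
      · have h2 := hij a
        rw [DD_dead hi hj a (by omega)]
    -- the smallest `a` with `i a < j a`
    have hex : ∃ a, i a < j a := by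
      by_contra hcon
      push Not at hcon
      have : ∑ a, (j a - i a) ≤ 0 := Finset.sum_nonpos fun a _ => by have := hcon a; omega
      omega
    obtain ⟨a, ha, hmin⟩ : ∃ a, i a < j a ∧ ∀ b, b < a → j b = i b := by
      obtain ⟨a, ha⟩ := hex
      have hne : (Finset.univ.filter fun a => i a < j a).Nonempty := ⟨a, by simpa using ha⟩
      refine ⟨(Finset.univ.filter fun a => i a < j a).min' hne, ?_, ?_⟩
      · have := Finset.min'_mem _ hne
        exact (Finset.mem_filter.1 this).2
      · intro b hb
        by_contra hcon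
        have h1 : b ∈ Finset.univ.filter fun a => i a < j a := by
          rw [Finset.mem_filter]
          exact ⟨Finset.mem_univ _, lt_of_le_of_ne (hij b) (Ne.symm hcon)⟩
        exact absurd (Finset.min'_le _ b h1) (not_le.2 hb)
    have hpos : 0 < DD i (Function.update j a (j a - 1)) := by
      apply key a
      refine ⟨ha, fun b hb => ?_⟩
      have h1 := hi hb
      rw [hmin b hb]
      omega
    have hsum : 0 < ∑ a, DD i (Function.update j a (j a - 1)) :=
      Finset.sum_pos' (fun a _ => nonneg a) ⟨a, Finset.mem_univ a, hpos⟩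
    rw [← hrec] at hsum
    have hN0 : (0 : ℝ) < (((N : ℤ) + 1 : ℤ) : ℝ) := by
      push_cast
      positivity
    exact (mul_pos_iff_of_pos_left hN0).1 hsum

/-- Total positivity. -/
theorem tp {k : ℕ} {i j : Fin k → ℤ} (hi : StrictMono i) (hj : StrictMono j)
    (hij : ∀ a, i a ≤ j a) : 0 < Matrix.det (fun b a : Fin k => gf (j a - i b)) :=
  DD_pos hi _ j hj hij rfl

end CNF
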